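import Mathlib

/-!
Alternating functions on lists, the inclusion lemma for the middle of a Boolean lattice, and the
injectivity of the double contraction.
-/

set_option autoImplicit false

namespace Pool.Agent.Helper40.DetLow

open Finset List

variable {ι : Type*} {K : Type*} [Field K] [CharZero K]

/-- A function on lists that changes its sign when two neighbours are exchanged. -/
def Alt {V : Type*} [AddCommGroup V] (f : List ι → V) : Prop :=
  ∀ (a : List ι) (x y : ι) (c : List ι), f (a ++ x :: y :: c) = - f (a ++ y :: x :: c)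

section
variable {V : Type*} [AddCommGroup V]

theorem Alt.left {f : List ι → V} (h : Alt f) (a : List ι) : Alt (fun l => f (a ++ l)) := by
  intro b x y c
  have := h (a ++ b) x y c
  simpa only [List.append_assoc] using this

theorem Alt.right {f : List ι → V} (h : Alt f) (c : List ι) : Alt (fun l => f (l ++ c)) := by
  intro b x y c'
  have := h b x y (c' ++ c)
  simpa only [List.append_assoc, List.cons_append] using this

theorem Alt.perm_aux {f : List ι → V} (h : Alt f) {l₁ l₂ : List ι} (hp : l₁ ~ l₂) :
    ∀ a : List ι, f (a ++ l₁) = f (a ++ l₂) ∨ f (a ++ l₁) = - f (a ++ l₂) := by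
  induction hp with
  | nil => intro a; exact Or.inl rfl
  | cons x _ ih =>
    intro a
    have := ih (a ++ [x])
    simpa only [List.append_assoc, List.cons_append, List.nil_append] using this
  | swap x y l => intro a; exact Or.inr (h a y x l)
  | trans _ _ ih₁ ih₂ =>
    intro a
    rcases ih₁ a with h1 | h1 <;> rcases ih₂ a with h2 | h2
    · exact Or.inl (h1.trans h2)
    · exact Or.inr (h1.trans h2)
    · exact Or.inr (by rw [h1, h2])
    · exact Or.inl (by rw [h1, h2, neg_neg])

theorem Alt.perm {f : List ι → V} (h : Alt f) {l₁ l₂ : List ι} (hp : l₁ ~ l₂) :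
    f l₁ = f l₂ ∨ f l₁ = - f l₂ := by
  simpa only [List.nil_append] using h.perm_aux hp []

theorem Alt.perm_zero {f : List ι → V} (h : Alt f) {l₁ l₂ : List ι} (hp : l₁ ~ l₂)
    (h0 : f l₂ = 0) : f l₁ = 0 := by
  rcases h.perm hp with h1 | h1
  · rw [h1, h0]
  · rw [h1, h0, neg_zero]

end

/-- An alternating function vanishes on lists with a repeated entry. -/
theorem Alt.dup {f : List ι → K} (h : Alt f) {l : List ι} (hl : ¬ l.Nodup) : f l = 0 := by
  obtain ⟨x, hx⟩ := List.exists_duplicate_iff_not_nodup.2 hl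
  obtain ⟨c, hc⟩ := (List.duplicate_iff_sublist.1 hx).exists_perm_append
  refine h.perm_zero hc ?_
  have h1 := h [] x x c
  simp only [List.nil_append, List.cons_append] at h1 ⊢
  have h2 : (2 : K) * f (x :: x :: c) = 0 := by linear_combination h1
  rcases mul_eq_zero.1 h2 with h3 | h3
  · exact absurd h3 two_ne_zero
  · exact h3

omit [CharZero K] in
/-- A function of two lists that is alternating in both does not change when the same permutation
is applied to a common middle part. -/
theorem alt2_perm {f : List ι → List ι → K} (h1 : ∀ b, Alt fun c => f c b) (h2 : ∀ c, Alt (f c))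
    {w w' : List ι} (hp : w ~ w') :
    ∀ a a' c c' : List ι, f (a ++ (w ++ c)) (a' ++ (w ++ c')) = f (a ++ (w' ++ c)) (a' ++ (w' ++ c')) := by
  induction hp with
  | nil => intro a a' c c'; rfl
  | cons x _ ih =>
    intro a a' c c'
    have := ih (a ++ [x]) (a' ++ [x]) c c'
    simpa only [List.append_assoc, List.cons_append, List.nil_append] using this
  | swap x y l =>
    intro a a' c c'
    simp only [List.cons_append]
    have e1 := h1 (a' ++ y :: x :: (l ++ c')) a y x (l ++ c)
    have e2 := h2 (a ++ x :: y :: (l ++ c)) a' y x (l ++ c')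
    simp only at e1
    rw [e1, e2, neg_neg]
  | trans _ _ ih₁ ih₂ =>
    intro a a' c c'
    rw [ih₁ a a' c c', ih₂ a a' c c']

/-! ### The inclusion lemma -/

variable [DecidableEq ι]

omit [CharZero K] in
private theorem sum_insert_swap (R : Finset ι) (v : ℕ) (F : Finset ι → K) (T : Finset ι)
    (_hT : T ⊆ R) :
    ∑ x ∈ R \ T, ∑ V ∈ (R.powersetCard v).filter (insert x T ⊆ ·), F V =
      ((v - T.card : ℕ) : K) * ∑ V ∈ (R.powersetCard v).filter (T ⊆ ·), F V := by
  have e1 : ∀ x ∈ R \ T, ∑ V ∈ (R.powersetCard v).filter (insert x T ⊆ ·), F V =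
      ∑ V ∈ (R.powersetCard v).filter (T ⊆ ·), if x ∈ V then F V else 0 := by
    intro x _
    rw [← Finset.sum_filter, Finset.filter_filter]
    refine Finset.sum_congr ?_ fun _ _ => rfl
    ext V
    simp only [Finset.mem_filter, Finset.insert_subset_iff]
    tauto
  rw [Finset.sum_congr rfl e1, Finset.sum_comm, Finset.mul_sum]
  refine Finset.sum_congr rfl fun V hV => ?_
  simp only [Finset.mem_filter, Finset.mem_powersetCard] at hV
  rw [← Finset.sum_filter, Finset.sum_const, nsmul_eq_mul]
  congr 2
  have e2 : (R \ T).filter (· ∈ V) = V \ T := by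
    ext x
    simp only [Finset.mem_filter, Finset.mem_sdiff]
    constructor
    · rintro ⟨⟨_, h2⟩, h3⟩; exact ⟨h3, h2⟩
    · rintro ⟨h3, h2⟩; exact ⟨⟨hV.1.1 h3, h2⟩, h3⟩
  rw [e2, Finset.card_sdiff_of_subset hV.2, hV.1.2]

/-- Vanishing sums over all supersets of the `(h-1)`-sets give vanishing sums over the supersets of
all smaller sets. -/
private theorem incl_down (R : Finset ι) (h : ℕ) (F : Finset ι → K)
    (_hR : h + 1 ≤ R.card)
    (hF : ∀ T ⊆ R, T.card + 1 = h → ∑ V ∈ (R.powersetCard (h + 1)).filter (T ⊆ ·), F V = 0) :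
    ∀ k : ℕ, ∀ T ⊆ R, T.card + 1 + k = h →
      ∑ V ∈ (R.powersetCard (h + 1)).filter (T ⊆ ·), F V = 0 := by
  intro k
  induction k with
  | zero => intro T hT h1; exact hF T hT (by omega)
  | succ k ih =>
    intro T hT h1
    have e1 := sum_insert_swap R (h + 1) F T hT
    have e2 : ∑ x ∈ R \ T, ∑ V ∈ (R.powersetCard (h + 1)).filter (insert x T ⊆ ·), F V = 0 := by
      refine Finset.sum_eq_zero fun x hx => ih (insert x T) ?_ ?_
      · exact Finset.insert_subset (Finset.mem_sdiff.1 hx).1 hT
      · rw [Finset.card_insert_of_notMem (Finset.mem_sdiff.1 hx).2]; omega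
    rw [e2] at e1
    rcases mul_eq_zero.1 e1.symm with e3 | e3
    · exfalso
      have : (h + 1 - T.card : ℕ) = 0 := by exact_mod_cast e3
      omega
    · exact e3

omit [CharZero K] in
private theorem incl_poly (R : Finset ι) (h : ℕ) (F : Finset ι → K)
    (hF : ∀ T ⊆ R, T.card + 1 ≤ h → ∑ V ∈ (R.powersetCard (h + 1)).filter (T ⊆ ·), F V = 0)
    (V₀ : Finset ι) (hV₀ : V₀ ⊆ R) (c : ℕ → K) :
    ∀ k : ℕ, ∀ T ⊆ R, T.card + 1 + k ≤ h →
      ∑ V ∈ (R.powersetCard (h + 1)).filter (T ⊆ ·),
        F V * ∏ i ∈ Finset.range k, (((V ∩ V₀).card : K) - c i) = 0 := by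
  intro k
  induction k with
  | zero =>
    intro T hT h1
    simpa using hF T hT (by omega)
  | succ k ih =>
    intro T hT h1
    have e0 := ih T hT (by omega)
    have e1 : ∀ V : Finset ι, ((V ∩ V₀).card : K) = ∑ x ∈ V₀, if x ∈ V then (1 : K) else 0 := by
      intro V
      rw [Finset.sum_ite_mem, Finset.sum_const, nsmul_eq_mul, mul_one, Finset.inter_comm]
    have e2 : ∑ V ∈ (R.powersetCard (h + 1)).filter (T ⊆ ·),
        F V * (∏ i ∈ Finset.range k, (((V ∩ V₀).card : K) - c i)) * ((V ∩ V₀).card : K) = 0 := by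
      have e3 : ∀ V ∈ (R.powersetCard (h + 1)).filter (T ⊆ ·),
          F V * (∏ i ∈ Finset.range k, (((V ∩ V₀).card : K) - c i)) * ((V ∩ V₀).card : K) =
          ∑ x ∈ V₀, if x ∈ V then
            F V * (∏ i ∈ Finset.range k, (((V ∩ V₀).card : K) - c i)) else 0 := by
        intro V _
        rw [mul_comm, e1 V, Finset.sum_mul]
        refine Finset.sum_congr rfl fun x _ => ?_
        rw [← e1 V]
        split_ifs
        · rw [one_mul]
        · rw [zero_mul]
      rw [Finset.sum_congr rfl e3, Finset.sum_comm]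
      refine Finset.sum_eq_zero fun x hx => ?_
      rw [← Finset.sum_filter, Finset.filter_filter]
      by_cases hxT : x ∈ T
      · refine Eq.trans (Finset.sum_congr ?_ fun _ _ => rfl) e0
        ext V
        simp only [Finset.mem_filter]
        constructor
        · rintro ⟨h2, h3, _⟩; exact ⟨h2, h3⟩
        · rintro ⟨h2, h3⟩; exact ⟨h2, h3, h3 hxT⟩
      · refine Eq.trans (Finset.sum_congr ?_ fun _ _ => rfl) (ih (insert x T)
          (Finset.insert_subset (hV₀ hx) hT) (by rw [Finset.card_insert_of_notMem hxT]; omega))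
        ext V
        simp only [Finset.mem_filter, Finset.insert_subset_iff]
        tauto
    have e4 : ∀ V ∈ (R.powersetCard (h + 1)).filter (T ⊆ ·),
        F V * ∏ i ∈ Finset.range (k + 1), (((V ∩ V₀).card : K) - c i) =
        F V * (∏ i ∈ Finset.range k, (((V ∩ V₀).card : K) - c i)) * ((V ∩ V₀).card : K) -
          c k * (F V * ∏ i ∈ Finset.range k, (((V ∩ V₀).card : K) - c i)) := by
      intro V _
      rw [Finset.prod_range_succ]
      ring
    rw [Finset.sum_congr rfl e4, Finset.sum_sub_distrib, e2, ← Finset.mul_sum, e0, mul_zero,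
      sub_zero]

/-- In the Boolean lattice of rank `2h` the operator from level `h+1` to level `h-1` is
injective. -/
theorem incl (R : Finset ι) (h : ℕ) (hR : R.card = 2 * h) (F : Finset ι → K)
    (hF : ∀ T ⊆ R, T.card + 1 = h → ∑ V ∈ (R.powersetCard (h + 1)).filter (T ⊆ ·), F V = 0) :
    ∀ V ⊆ R, V.card = h + 1 → F V = 0 := by
  intro V₀ hV₀ hc
  have hle := Finset.card_le_card hV₀
  have h1 : 1 ≤ h := by omega
  have hF' : ∀ T ⊆ R, T.card + 1 ≤ h →
      ∑ V ∈ (R.powersetCard (h + 1)).filter (T ⊆ ·), F V = 0 := by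
    intro T hT hle'
    exact incl_down R h F (by omega) hF (h - (T.card + 1)) T hT (by omega)
  have e := incl_poly R h F hF' V₀ hV₀ (fun i => ((i + 2 : ℕ) : K)) (h - 1) ∅
    (Finset.empty_subset R) (by simp; omega)
  rw [Finset.sum_eq_single_of_mem V₀] at e
  · rcases mul_eq_zero.1 e with e1 | e1
    · exact e1
    · exfalso
      rw [Finset.prod_eq_zero_iff] at e1
      obtain ⟨i, hi, e2⟩ := e1
      rw [Finset.inter_self, hc, sub_eq_zero] at e2
      have e3 : h + 1 = i + 2 := by exact_mod_cast e2
      rw [Finset.mem_range] at hi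
      omega
  · simp only [Finset.mem_filter, Finset.mem_powersetCard, Finset.empty_subset, and_true]
    exact ⟨hV₀, hc⟩
  · intro V hV hne
    simp only [Finset.mem_filter, Finset.mem_powersetCard] at hV
    have e1 : (V ∪ V₀).card + (V ∩ V₀).card = V.card + V₀.card :=
      Finset.card_union_add_card_inter V V₀
    have e2 : (V ∪ V₀).card ≤ R.card := Finset.card_le_card (Finset.union_subset hV.1.1 hV₀)
    have e3 : (V ∩ V₀).card < h + 1 := by
      rcases lt_or_ge (V ∩ V₀).card (h + 1) with h4 | h4
      · exact h4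
      · exfalso
        have h5 : V ∩ V₀ = V := Finset.eq_of_subset_of_card_le Finset.inter_subset_left
          (by omega)
        have h6 : V ∩ V₀ = V₀ := Finset.eq_of_subset_of_card_le Finset.inter_subset_right
          (by omega)
        exact hne (h5.symm.trans h6)
    refine mul_eq_zero_of_right _ (Finset.prod_eq_zero (i := (V ∩ V₀).card - 2) ?_ ?_)
    · rw [Finset.mem_range]; omega
    · have : (V ∩ V₀).card - 2 + 2 = (V ∩ V₀).card := by omega
      simp only [this, sub_self]

end Pool.Agent.Helper40.DetLow
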