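import Pool.Agent.Helper40.DetLow.Alt

/-!
The double contraction of functions alternating in two lists of total length `card ι + 2` is
injective (the middle case of the hard Lefschetz property of the exterior algebra).
-/

set_option autoImplicit false

namespace Pool.Agent.Helper40.DetLow

open Finset List

variable {ι : Type*} {K : Type*} [Field K] [CharZero K]

theorem contract [Fintype ι] [DecidableEq ι] (u s : ℕ) (hus : u + s = Fintype.card ι + 2)
    (f : List ι → List ι → K) (h1 : ∀ b, Alt fun c => f c b) (h2 : ∀ c, Alt (f c))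
    (hf : ∀ c b : List ι, c.length + 2 = u → b.length + 2 = s →
      ∑ x : ι, ∑ y : ι, f (x :: y :: c) (x :: y :: b) = 0) :
    ∀ c b : List ι, c.length = u → b.length = s → f c b = 0 := by
  intro c b hc hb
  by_cases hcn : c.Nodup
  swap
  · exact (h1 b).dup hcn
  by_cases hbn : b.Nodup
  swap
  · exact (h2 c).dup hbn
  set C : Finset ι := c.toFinset with hC
  set B : Finset ι := b.toFinset with hB
  have hCc : C.card = u := by rw [hC, List.toFinset_card_of_nodup hcn, hc]
  have hBc : B.card = s := by rw [hB, List.toFinset_card_of_nodup hbn, hb]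
  set V : Finset ι := C ∩ B with hV
  set c0 : List ι := (C \ B).toList with hc0
  set b0 : List ι := (B \ C).toList with hb0
  have hcp : c ~ V.toList ++ c0 := by
    refine List.perm_of_nodup_nodup_toFinset_eq hcn ?_ ?_
    · refine List.Nodup.append (Finset.nodup_toList _) (Finset.nodup_toList _) ?_
      intro x hx hx'
      rw [Finset.mem_toList] at hx hx'
      exact (Finset.mem_sdiff.1 hx').2 (Finset.mem_inter.1 hx).2
    · ext x
      simp only [List.mem_toFinset, List.mem_append, Finset.mem_toList, hc0, hV,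
        Finset.mem_inter, Finset.mem_sdiff, hC]
      tauto
  have hbp : b ~ V.toList ++ b0 := by
    refine List.perm_of_nodup_nodup_toFinset_eq hbn ?_ ?_
    · refine List.Nodup.append (Finset.nodup_toList _) (Finset.nodup_toList _) ?_
      intro x hx hx'
      rw [Finset.mem_toList] at hx hx'
      exact (Finset.mem_sdiff.1 hx').2 (Finset.mem_inter.1 hx).1
    · ext x
      simp only [List.mem_toFinset, List.mem_append, Finset.mem_toList, hb0, hV,
        Finset.mem_inter, Finset.mem_sdiff, hB]
      tauto
  refine (h1 b).perm_zero hcp ((h2 _).perm_zero hbp ?_)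
  set R : Finset ι := univ \ ((C \ B) ∪ (B \ C)) with hRdef
  have hcC : (C \ B).card + V.card = u := by
    rw [← hCc, hV, Finset.inter_comm]
    exact (Finset.card_sdiff_add_card_inter C B).symm ▸ by rw [Finset.inter_comm]
  have hcB : (B \ C).card + V.card = s := by
    rw [← hBc, hV, Finset.inter_comm]
    exact Finset.card_sdiff_add_card_inter B C
  have hdisj : Disjoint (C \ B) (B \ C) := by
    rw [Finset.disjoint_left]
    intro x hx hx'
    exact (Finset.mem_sdiff.1 hx').2 (Finset.mem_sdiff.1 hx).1
  have hRc : R.card + ((C \ B).card + (B \ C).card) = Fintype.card ι := by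
    rw [hRdef, ← Finset.card_union_of_disjoint hdisj, Finset.card_sdiff_add_card_eq_card
      (Finset.subset_univ _), Finset.card_univ]
  have hVR : V ⊆ R := by
    intro x hx
    rw [hV, Finset.mem_inter] at hx
    rw [hRdef]
    simp only [Finset.mem_sdiff, Finset.mem_univ, true_and, Finset.mem_union, not_or, not_and,
      not_not]
    exact ⟨fun _ => hx.2, fun _ => hx.1⟩
  have hVle := Finset.card_le_card hVR
  have hv : 2 ≤ V.card := by omega
  set F : Finset ι → K := fun W => f (W.toList ++ c0) (W.toList ++ b0) with hF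
  have key := incl R (V.card - 1) (by omega) F ?_ V hVR (by omega)
  · exact key
  intro T hT hTc
  have e := hf (T.toList ++ c0) (T.toList ++ b0)
    (by rw [List.length_append, Finset.length_toList, hc0, Finset.length_toList]; omega)
    (by rw [List.length_append, Finset.length_toList, hb0, Finset.length_toList]; omega)
  have hzero : ∀ x y : ι, ¬ (x ∈ R \ T ∧ y ∈ R \ T ∧ x ≠ y) →
      f (x :: y :: (T.toList ++ c0)) (x :: y :: (T.toList ++ b0)) = 0 := by
    intro x y hxy
    by_cases hn1 : (x :: y :: (T.toList ++ c0)).Nodup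
    swap
    · exact (h1 _).dup hn1
    by_cases hn2 : (x :: y :: (T.toList ++ b0)).Nodup
    swap
    · exact (h2 _).dup hn2
    exfalso
    apply hxy
    simp only [List.nodup_cons, List.mem_cons, List.mem_append, Finset.mem_toList, hc0, hb0,
      not_or] at hn1 hn2
    simp only [hRdef, Finset.mem_sdiff, Finset.mem_univ, true_and, Finset.mem_union, not_or]
    have a1 := hn1.1.2.2
    have a2 := hn2.1.2.2
    have a3 := hn1.2.1.2
    have a4 := hn2.2.1.2
    rw [Finset.mem_sdiff] at a1 a2 a3 a4
    exact ⟨⟨⟨a1, a2⟩, hn1.1.2.1⟩, ⟨⟨a3, a4⟩, hn1.2.1.1⟩, hn1.1.1⟩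
  have hval : ∀ p ∈ (R \ T).offDiag,
      f (p.1 :: p.2 :: (T.toList ++ c0)) (p.1 :: p.2 :: (T.toList ++ b0)) =
        F (insert p.1 (insert p.2 T)) := by
    rintro ⟨x, y⟩ hp
    rw [Finset.mem_offDiag] at hp
    obtain ⟨hx, hy, hne⟩ := hp
    have hxT : x ∉ insert y T := by
      rw [Finset.mem_insert, not_or]
      exact ⟨hne, (Finset.mem_sdiff.1 hx).2⟩
    have hyT : y ∉ T := (Finset.mem_sdiff.1 hy).2
    have hp : x :: y :: T.toList ~ (insert x (insert y T)).toList := by
      refine ((Finset.toList_insert hxT).trans (List.Perm.cons _ (Finset.toList_insert hyT))).symm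
    have := alt2_perm h1 h2 hp [] [] c0 b0
    simpa only [List.nil_append, List.cons_append] using this
  have hsum : ∑ x : ι, ∑ y : ι, f (x :: y :: (T.toList ++ c0)) (x :: y :: (T.toList ++ b0)) =
      ∑ p ∈ (R \ T).offDiag, F (insert p.1 (insert p.2 T)) := by
    rw [← Finset.sum_product', Finset.univ_product_univ]
    rw [← Finset.sum_congr rfl hval]
    refine (Finset.sum_subset (Finset.subset_univ _) ?_).symm
    rintro ⟨x, y⟩ _ hxy
    refine hzero x y fun hcon => hxy ?_
    rw [Finset.mem_offDiag]
    exact hcon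
  rw [hsum] at e
  have hmaps : ∀ p ∈ (R \ T).offDiag, insert p.1 (insert p.2 T) ∈
      (R.powersetCard (V.card - 1 + 1)).filter (T ⊆ ·) := by
    rintro ⟨x, y⟩ hp
    rw [Finset.mem_offDiag] at hp
    obtain ⟨hx, hy, hne⟩ := hp
    rw [Finset.mem_sdiff] at hx hy
    have hxT : x ∉ insert y T := by
      rw [Finset.mem_insert, not_or]
      exact ⟨hne, hx.2⟩
    simp only [Finset.mem_filter, Finset.mem_powersetCard]
    refine ⟨⟨Finset.insert_subset hx.1 (Finset.insert_subset hy.1 hT), ?_⟩, ?_⟩
    · rw [Finset.card_insert_of_notMem hxT, Finset.card_insert_of_notMem hy.2]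
      omega
    · exact (Finset.subset_insert _ _).trans (Finset.subset_insert _ _)
  rw [← Finset.sum_fiberwise_of_maps_to hmaps] at e
  have hfib : ∀ W ∈ (R.powersetCard (V.card - 1 + 1)).filter (T ⊆ ·),
      ∑ p ∈ (R \ T).offDiag.filter (fun p => insert p.1 (insert p.2 T) = W),
        F (insert p.1 (insert p.2 T)) = 2 * F W := by
    intro W hW
    simp only [Finset.mem_filter, Finset.mem_powersetCard] at hW
    have e1 : (R \ T).offDiag.filter (fun p => insert p.1 (insert p.2 T) = W) =
        (W \ T).offDiag := by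
      ext ⟨x, y⟩
      simp only [Finset.mem_filter, Finset.mem_offDiag, Finset.mem_sdiff]
      constructor
      · rintro ⟨⟨hx, hy, hne⟩, hW'⟩
        subst hW'
        exact ⟨⟨Finset.mem_insert_self _ _, hx.2⟩,
          ⟨Finset.mem_insert_of_mem (Finset.mem_insert_self _ _), hy.2⟩, hne⟩
      · rintro ⟨⟨hx, hx2⟩, ⟨hy, hy2⟩, hne⟩
        refine ⟨⟨⟨hW.1.1 hx, hx2⟩, ⟨hW.1.1 hy, hy2⟩, hne⟩, ?_⟩
        refine Finset.eq_of_subset_of_card_le
          (Finset.insert_subset hx (Finset.insert_subset hy hW.2)) ?_
        rw [Finset.card_insert_of_notMem, Finset.card_insert_of_notMem hy2]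
        · omega
        · rw [Finset.mem_insert, not_or]
          exact ⟨hne, hx2⟩
    have e2 : ∀ p ∈ (R \ T).offDiag.filter (fun p => insert p.1 (insert p.2 T) = W),
        F (insert p.1 (insert p.2 T)) = F W := by
      intro p hp
      rw [(Finset.mem_filter.1 hp).2]
    rw [Finset.sum_congr rfl e2, Finset.sum_const, e1, Finset.offDiag_card,
      Finset.card_sdiff_of_subset hW.2, hW.1.2]
    have e3 : V.card - 1 + 1 - T.card = 2 := by omega
    rw [e3, nsmul_eq_mul]
    norm_num
  rw [Finset.sum_congr rfl hfib, ← Finset.mul_sum] at e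
  rcases mul_eq_zero.1 e with e1 | e1
  · exact absurd e1 two_ne_zero
  · exact e1

end Pool.Agent.Helper40.DetLow
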