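import Pool.Agent.Helper40.DetLow.Contract

/-!
The Koszul flattening argument: a bilinear form which is a symmetric unknown minus a signed volume
in two slots has large rank.
-/

set_option autoImplicit false

namespace Pool.Agent.Helper40.DetLow

open Finset List

variable {K : Type*} [Field K] [CharZero K]

/-- Subsets of `Fin n` with `k` elements. -/
abbrev Sub (n k : ℕ) : Type := {s : Finset (Fin n) // s.card = k}

theorem card_Sub (n k : ℕ) : Fintype.card (Sub n k) = n.choose k := by
  have := Fintype.card_finset_len (α := Fin n) k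
  rwa [Fintype.card_fin] at this

/-- A volume function on lists of `n` elements. -/
structure IsVol {n : ℕ} (v : List (Fin n) → K) : Prop where
  alt : Alt v
  ne : ∀ b : List (Fin n), b.Nodup → b.length = n → v b ≠ 0

omit [CharZero K] in
theorem sum_antisymm_zero {ι : Type*} [Fintype ι] (A : ι → ι → K) (h2 : (2 : K) ≠ 0)
    (h : ∀ x y, A x y = - A y x) : ∑ x, ∑ y, A x y = 0 := by
  have e : ∑ x, ∑ y, A x y = - ∑ x, ∑ y, A x y := by
    conv_lhs => rw [Finset.sum_comm]
    rw [← Finset.sum_neg_distrib]
    refine Finset.sum_congr rfl fun x _ => ?_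
    rw [← Finset.sum_neg_distrib]
    exact Finset.sum_congr rfl fun y _ => h y x
  have e2 : (2 : K) * ∑ x, ∑ y, A x y = 0 := by linear_combination e
  exact (mul_eq_zero.1 e2).resolve_left h2

section
variable {n m : ℕ} (v : List (Fin n) → K)

/-- The alternating extension of a function on subsets. -/
noncomputable def ext' (x : Sub n (m + 1) → K) (b : List (Fin n)) : K :=
  ∑ S : Sub n (m + 1), x S * v (b ++ (S.1ᶜ).toList)

variable {v}

omit [CharZero K] in
theorem ext'_alt (hv : IsVol v) (x : Sub n (m + 1) → K) : Alt (ext' v x) := by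
  intro a y z c
  unfold ext'
  rw [← Finset.sum_neg_distrib]
  refine Finset.sum_congr rfl fun S _ => ?_
  have := (hv.alt.right (S.1ᶜ).toList) a y z c
  simp only at this
  rw [this, mul_neg]

theorem vol_append_compl_zero (hv : IsVol v) {k : ℕ} (S S' : Sub n k) (h : S ≠ S') :
    v (S.1.toList ++ (S'.1ᶜ).toList) = 0 := by
  refine hv.alt.dup ?_
  intro hn
  have hd := (List.nodup_append.1 hn).2.2
  apply h
  apply Subtype.ext
  refine Finset.eq_of_subset_of_card_le (fun x hx => ?_) (by rw [S.2, S'.2])
  by_contra hx'
  have h1 : x ∈ (S'.1ᶜ).toList := by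
    rw [Finset.mem_toList, Finset.mem_compl]; exact hx'
  exact hd x (Finset.mem_toList.2 hx) x h1 rfl

omit [CharZero K] in
theorem vol_append_compl_ne (hv : IsVol v) {k : ℕ} (S : Sub n k) :
    v (S.1.toList ++ (S.1ᶜ).toList) ≠ 0 := by
  refine hv.ne _ ?_ ?_
  · refine List.Nodup.append (Finset.nodup_toList _) (Finset.nodup_toList _) ?_
    intro x hx hx'
    rw [Finset.mem_toList] at hx hx'
    exact (Finset.mem_compl.1 hx') hx
  · rw [List.length_append, Finset.length_toList, Finset.length_toList, Finset.card_compl,
      Fintype.card_fin]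
    have := Finset.card_le_univ S.1
    rw [Fintype.card_fin] at this
    omega

end

/-- The Koszul flattening bound. -/
theorem koszul {n m : ℕ} (hm : 1 ≤ m) (hmn : m + 1 ≤ n) {v : List (Fin n) → K} (hv : IsVol v)
    {N : Type*} [AddCommGroup N] [Module K N] [FiniteDimensional K N]
    (b : Sub n m → Sub n (m - 1) → Fin n → N)
    (φ : Sub n (n - m) → Sub n (n - m - 1) → Fin n → (N →ₗ[K] K))
    (ρ : Sub n m → Sub n (n - m) → K)
    (hρ : ∀ I I', I'.1 = I.1ᶜ → ρ I I' ≠ 0) (hρ0 : ∀ I I', I'.1 ≠ I.1ᶜ → ρ I I' = 0)
    (hφ : ∀ I Q I' Q', ∃ E : Fin n → Fin n → K, (∀ x y, E x y = E y x) ∧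
      ∀ x y, φ I' Q' y (b I Q x) = E x y - ρ I I' * v (Q.1.toList ++ x :: y :: Q'.1.toList)) :
    n.choose (m - 1) * n.choose (m + 1) ≤ Module.finrank K N := by
  classical
  let B : (Sub n m × Sub n (m - 1) × Sub n (m + 1) → K) →ₗ[K] (Sub n m → N) :=
    { toFun := fun x S => ∑ I : Sub n m, ∑ Q : Sub n (m - 1), ∑ l : Fin n,
        ext' v (fun S' => x (I, Q, S')) (l :: S.1.toList) • b I Q l
      map_add' := by
        intro x y
        funext S
        simp only [Pi.add_apply, ext', ← Finset.sum_add_distrib, ← add_smul, add_mul]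
      map_smul' := by
        intro c x
        funext S
        simp only [Pi.smul_apply, smul_eq_mul, ext', RingHom.id_apply, Finset.smul_sum, smul_smul,
          Finset.mul_sum, mul_assoc] }
  have hBdef : ∀ x S, B x S = ∑ I : Sub n m, ∑ Q : Sub n (m - 1), ∑ l : Fin n,
        ext' v (fun S' => x (I, Q, S')) (l :: S.1.toList) • b I Q l := fun _ _ => rfl
  have hinj : Function.Injective B := by
    rw [injective_iff_map_eq_zero]
    intro x hx
    -- vanishing for all lists of length `m`
    have hY : ∀ b' : List (Fin n), b'.length = m →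
        ∑ I : Sub n m, ∑ Q : Sub n (m - 1), ∑ l : Fin n,
          ext' v (fun S' => x (I, Q, S')) (l :: b') • b I Q l = 0 := by
      intro b' hb'
      by_cases hn : b'.Nodup
      · set f : List (Fin n) → N := fun c => ∑ I : Sub n m, ∑ Q : Sub n (m - 1), ∑ l : Fin n,
          ext' v (fun S' => x (I, Q, S')) (l :: c) • b I Q l with hf
        have hfalt : Alt f := by
          intro a y z c
          simp only [hf]
          rw [← Finset.sum_neg_distrib]
          refine Finset.sum_congr rfl fun I _ => ?_
          rw [← Finset.sum_neg_distrib]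
          refine Finset.sum_congr rfl fun Q _ => ?_
          rw [← Finset.sum_neg_distrib]
          refine Finset.sum_congr rfl fun l _ => ?_
          have := ext'_alt hv (fun S' => x (I, Q, S')) (l :: a) y z c
          rw [List.cons_append, List.cons_append] at this
          rw [this, neg_smul]
        have hc : b'.toFinset.card = m := by rw [List.toFinset_card_of_nodup hn, hb']
        refine hfalt.perm_zero (l₂ := (b'.toFinset).toList) ?_ ?_
        · exact List.perm_of_nodup_nodup_toFinset_eq hn (Finset.nodup_toList _)
            (Finset.toList_toFinset _).symm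
        · have := congrFun hx ⟨b'.toFinset, hc⟩
          rw [hBdef] at this
          exact this
      · refine Finset.sum_eq_zero fun I _ => Finset.sum_eq_zero fun Q _ =>
          Finset.sum_eq_zero fun l _ => ?_
        rw [(ext'_alt hv _).dup (fun h => hn (List.nodup_cons.1 h).2), zero_smul]
    -- the scalar equations
    have hscal : ∀ (I' : Sub n (n - m)) (Q' : Sub n (n - m - 1)) (b'' : List (Fin n)),
        b''.length + 1 = m →
        ∑ I : Sub n m, ∑ Q : Sub n (m - 1), ρ I I' * ∑ l : Fin n, ∑ y : Fin n,
          ext' v (fun S' => x (I, Q, S')) (l :: y :: b'') *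
            v (Q.1.toList ++ l :: y :: Q'.1.toList) = 0 := by
      intro I' Q' b'' hb''
      have e1 : ∀ y : Fin n, ∑ I : Sub n m, ∑ Q : Sub n (m - 1), ∑ l : Fin n,
          ext' v (fun S' => x (I, Q, S')) (l :: y :: b'') * φ I' Q' y (b I Q l) = 0 := by
        intro y
        have := congrArg (φ I' Q' y) (hY (y :: b'') (by rw [List.length_cons]; exact hb''))
        simpa only [map_sum, map_smul, smul_eq_mul, map_zero] using this
      have e2 : ∑ y : Fin n, ∑ I : Sub n m, ∑ Q : Sub n (m - 1), ∑ l : Fin n,
          ext' v (fun S' => x (I, Q, S')) (l :: y :: b'') * φ I' Q' y (b I Q l) = 0 :=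
        Finset.sum_eq_zero fun y _ => e1 y
      have e3 : ∑ I : Sub n m, ∑ Q : Sub n (m - 1), ∑ l : Fin n, ∑ y : Fin n,
          ext' v (fun S' => x (I, Q, S')) (l :: y :: b'') * φ I' Q' y (b I Q l) = 0 := by
        have comm3 : ∀ g : Sub n m → Sub n (m - 1) → Fin n → Fin n → K,
            ∑ I, ∑ Q, ∑ l, ∑ y, g I Q l y = ∑ y, ∑ I, ∑ Q, ∑ l, g I Q l y := by
          intro g
          calc ∑ I, ∑ Q, ∑ l, ∑ y, g I Q l y = ∑ I, ∑ Q, ∑ y, ∑ l, g I Q l y :=
                Finset.sum_congr rfl fun I _ => Finset.sum_congr rfl fun Q _ => Finset.sum_comm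
            _ = ∑ I, ∑ y, ∑ Q, ∑ l, g I Q l y :=
                Finset.sum_congr rfl fun I _ => Finset.sum_comm
            _ = ∑ y, ∑ I, ∑ Q, ∑ l, g I Q l y := Finset.sum_comm
        rw [comm3 fun I Q l y => ext' v (fun S' => x (I, Q, S')) (l :: y :: b'') *
          φ I' Q' y (b I Q l)]
        exact e2
      have e6 : ∑ I : Sub n m, ∑ Q : Sub n (m - 1), ∑ l : Fin n, ∑ y : Fin n,
          ext' v (fun S' => x (I, Q, S')) (l :: y :: b'') * φ I' Q' y (b I Q l) =
          - ∑ I : Sub n m, ∑ Q : Sub n (m - 1), ρ I I' * ∑ l : Fin n, ∑ y : Fin n,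
          ext' v (fun S' => x (I, Q, S')) (l :: y :: b'') *
            v (Q.1.toList ++ l :: y :: Q'.1.toList) := by
        rw [← Finset.sum_neg_distrib]
        refine Finset.sum_congr rfl fun I _ => ?_
        rw [← Finset.sum_neg_distrib]
        refine Finset.sum_congr rfl fun Q _ => ?_
        obtain ⟨E, hE, hφE⟩ := hφ I Q I' Q'
        have e4 : ∑ l : Fin n, ∑ y : Fin n,
            ext' v (fun S' => x (I, Q, S')) (l :: y :: b'') * E l y = 0 := by
          refine sum_antisymm_zero _ two_ne_zero fun l y => ?_
          have := ext'_alt hv (fun S' => x (I, Q, S')) [] l y b''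
          simp only [List.nil_append] at this
          rw [this, hE l y, neg_mul]
        have e5 : ∑ l : Fin n, ∑ y : Fin n,
            ext' v (fun S' => x (I, Q, S')) (l :: y :: b'') * φ I' Q' y (b I Q l) =
            ∑ l : Fin n, ∑ y : Fin n, ext' v (fun S' => x (I, Q, S')) (l :: y :: b'') * E l y -
            ρ I I' * ∑ l : Fin n, ∑ y : Fin n, ext' v (fun S' => x (I, Q, S')) (l :: y :: b'') *
              v (Q.1.toList ++ l :: y :: Q'.1.toList) := by
          rw [Finset.mul_sum, ← Finset.sum_sub_distrib]
          refine Finset.sum_congr rfl fun l _ => ?_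
          rw [Finset.mul_sum, ← Finset.sum_sub_distrib]
          refine Finset.sum_congr rfl fun y _ => ?_
          rw [hφE]
          ring
        rw [e5, e4, zero_sub]
      rw [e6] at e3
      exact neg_eq_zero.1 e3
    -- now fix `I`
    funext ⟨I₀, Q₀, S₀⟩
    rw [Pi.zero_apply]
    have hI₀ : (I₀.1ᶜ).card = n - m := by
      rw [Finset.card_compl, Fintype.card_fin, I₀.2]
    set f : List (Fin n) → List (Fin n) → K := fun c d =>
      ∑ Q : Sub n (m - 1), ext' v (fun S' => x (I₀, Q, S')) d * v (Q.1.toList ++ c) with hf
    have hf1 : ∀ d, Alt fun c => f c d := by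
      intro d a y z c
      simp only [hf]
      rw [← Finset.sum_neg_distrib]
      refine Finset.sum_congr rfl fun Q _ => ?_
      have := (hv.alt.left Q.1.toList) a y z c
      simp only at this
      rw [this, mul_neg]
    have hf2 : ∀ c, Alt (f c) := by
      intro c a y z d
      simp only [hf]
      rw [← Finset.sum_neg_distrib]
      refine Finset.sum_congr rfl fun Q _ => ?_
      rw [ext'_alt hv (fun S' => x (I₀, Q, S')) a y z d, neg_mul]
    have hfz : ∀ c d : List (Fin n), c.length + 2 = n - m + 1 → d.length + 2 = m + 1 →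
        ∑ l : Fin n, ∑ y : Fin n, f (l :: y :: c) (l :: y :: d) = 0 := by
      intro c d hc hd
      by_cases hn : c.Nodup
      · set G : List (Fin n) → K := fun c => ∑ l : Fin n, ∑ y : Fin n,
          f (l :: y :: c) (l :: y :: d) with hG
        have hGalt : Alt G := by
          intro a y z c
          simp only [hG]
          rw [← Finset.sum_neg_distrib]
          refine Finset.sum_congr rfl fun l _ => ?_
          rw [← Finset.sum_neg_distrib]
          refine Finset.sum_congr rfl fun l' _ => ?_
          have := hf1 (l :: l' :: d) (l :: l' :: a) y z c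
          simpa only [List.cons_append] using this
        have hcc : c.toFinset.card = n - m - 1 := by
          rw [List.toFinset_card_of_nodup hn]; omega
        refine hGalt.perm_zero (l₂ := (c.toFinset).toList) ?_ ?_
        · exact List.perm_of_nodup_nodup_toFinset_eq hn (Finset.nodup_toList _)
            (Finset.toList_toFinset _).symm
        · have e := hscal ⟨I₀.1ᶜ, hI₀⟩ ⟨c.toFinset, hcc⟩ d (by omega)
          rw [Finset.sum_eq_single I₀] at e
          · rw [← Finset.mul_sum] at e
            rcases mul_eq_zero.1 e with e1 | e1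
            · exact absurd e1 (hρ _ _ rfl)
            · rw [← e1]
              simp only [hG, hf]
              rw [Finset.sum_comm]
              have : ∀ l : Fin n, ∑ y : Fin n, ∑ Q : Sub n (m - 1),
                  ext' v (fun S' => x (I₀, Q, S')) (l :: y :: d) *
                    v (Q.1.toList ++ l :: y :: (c.toFinset).toList) =
                  ∑ Q : Sub n (m - 1), ∑ y : Fin n,
                  ext' v (fun S' => x (I₀, Q, S')) (l :: y :: d) *
                    v (Q.1.toList ++ l :: y :: (c.toFinset).toList) :=
                fun l => Finset.sum_comm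
              rw [Finset.sum_comm, Finset.sum_congr rfl fun l _ => this l, Finset.sum_comm]
          · intro I _ hI
            rw [← Finset.mul_sum, hρ0, zero_mul]
            intro hcon
            apply hI
            apply Subtype.ext
            exact (compl_injective hcon).symm
          · intro h; exact absurd (Finset.mem_univ _) h
      · refine Finset.sum_eq_zero fun l _ => Finset.sum_eq_zero fun y _ => ?_
        exact (hf1 _).dup fun h => hn (List.nodup_cons.1 (List.nodup_cons.1 h).2).2
    have hall := contract (n - m + 1) (m + 1) (by rw [Fintype.card_fin]; omega) f hf1 hf2 hfz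
      (Q₀.1ᶜ).toList S₀.1.toList
      (by rw [Finset.length_toList, Finset.card_compl, Fintype.card_fin, Q₀.2]; omega)
      (by rw [Finset.length_toList, S₀.2])
    simp only [hf] at hall
    rw [Finset.sum_eq_single Q₀] at hall
    · rcases mul_eq_zero.1 hall with h1 | h1
      · unfold ext' at h1
        rw [Finset.sum_eq_single S₀] at h1
        · rcases mul_eq_zero.1 h1 with h2 | h2
          · exact h2
          · exact absurd h2 (vol_append_compl_ne hv S₀)
        · intro S _ hS
          rw [vol_append_compl_zero hv S₀ S (Ne.symm hS), mul_zero]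
        · intro h; exact absurd (Finset.mem_univ _) h
      · exact absurd h1 (vol_append_compl_ne hv Q₀)
    · intro Q _ hQ
      rw [vol_append_compl_zero hv Q Q₀ hQ, mul_zero]
    · intro h; exact absurd (Finset.mem_univ _) h
  have hle := LinearMap.finrank_le_finrank_of_injective hinj
  rw [Module.finrank_fintype_fun_eq_card, Fintype.card_prod, Fintype.card_prod, card_Sub,
    card_Sub, card_Sub, Module.finrank_pi_fintype, Finset.sum_const, Finset.card_univ, card_Sub,
    smul_eq_mul] at hle
  have hpos : 0 < n.choose m := Nat.choose_pos (by omega)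
  exact Nat.le_of_mul_le_mul_left hle hpos

end Pool.Agent.Helper40.DetLow
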