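import Pool.Agent.Helper40.DetLow.Step2

/-!
The lower bound `choose (2 d) (d - 1)` for the number of summands.
-/

set_option autoImplicit false

namespace Pool.Agent.Helper40.DetLow

open Finset List

variable {K : Type*} [Field K] [CharZero K]

theorem card_Pa (n m : ℕ) : Fintype.card (Dat.Pa n (m + 1)) =
    n.choose (m + 1) * (n.choose (m + 1) + 2 * n.choose m) := by
  classical
  set X : Finset (Finset (Fin (n + 1))) := Finset.powersetCard (m + 1) Finset.univ with hX
  set X1 : Finset (Finset (Fin (n + 1))) :=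
    Finset.powersetCard (m + 1) (Finset.univ.erase 0) with hX1
  set X0 : Finset (Finset (Fin (n + 1))) := X.filter (fun I => (0 : Fin (n + 1)) ∈ I) with hX0
  have hcX : X.card = (n + 1).choose (m + 1) := by
    rw [hX, Finset.card_powersetCard, Finset.card_univ, Fintype.card_fin]
  have hcX1 : X1.card = n.choose (m + 1) := by
    rw [hX1, Finset.card_powersetCard, Finset.card_erase_of_mem (Finset.mem_univ _),
      Finset.card_univ, Fintype.card_fin, Nat.add_sub_cancel]
  have hsplit : X0.card + X1.card = X.card := by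
    have e : X1 = X.filter (fun I => ¬ (0 : Fin (n + 1)) ∈ I) := by
      ext I
      simp only [hX1, hX, Finset.mem_powersetCard, Finset.mem_filter]
      constructor
      · rintro ⟨h1, h2⟩
        exact ⟨⟨Finset.subset_univ _, h2⟩, fun h0 => (Finset.mem_erase.1 (h1 h0)).1 rfl⟩
      · rintro ⟨⟨_, h2⟩, h0⟩
        refine ⟨fun x hx => Finset.mem_erase.2 ⟨?_, Finset.mem_univ _⟩, h2⟩
        rintro rfl
        exact h0 hx
    rw [e, hX0]
    exact Finset.card_filter_add_card_filter_not _
  have hcX0 : X0.card = n.choose m := by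
    have := Nat.choose_succ_succ n m
    simp only [Nat.succ_eq_add_one] at this
    omega
  have hPa : Fintype.card (Dat.Pa n (m + 1)) = ((X ×ˢ X) \ (X0 ×ˢ X0)).card := by
    rw [Fintype.card_subtype]
    congr 1
    ext ⟨I, J⟩
    simp only [Finset.mem_filter, Finset.mem_univ, true_and, Finset.mem_sdiff,
      Finset.mem_product, hX, hX0, Finset.mem_powersetCard, Finset.subset_univ]
    tauto
  have hsub : X0 ×ˢ X0 ⊆ X ×ˢ X :=
    Finset.product_subset_product (Finset.filter_subset _ _) (Finset.filter_subset _ _)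
  rw [hPa, Finset.card_sdiff_of_subset hsub, Finset.card_product, Finset.card_product]
  have h1 : X.card = n.choose m + n.choose (m + 1) := by omega
  rw [h1, hcX0]
  generalize n.choose m = a
  generalize n.choose (m + 1) = b
  have : (a + b) * (a + b) = b * (b + 2 * a) + a * a := by ring
  rw [this, Nat.add_sub_cancel]

namespace Dat

variable {n r : ℕ} (D : Dat n r K)

theorem growth_zero (hn : 1 ≤ n) :
    Module.finrank K (D.F 0) + Fintype.card (Pa n 1) ≤ Module.finrank K (D.F 1) := by
  have h := two_step (D.F 1) (D.F 0) (D.A 1) (0 : (Fin r → K) →ₗ[K] K) (D.F_mono 0)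
    (by
      have := D.A_zero 1 le_rfl (by omega)
      simpa using this) (by simp) (Fintype.card (Pa n 1)) 0
    (by rw [D.A_surj 1 (by omega), finrank_top, Module.finrank_fintype_fun_eq_card]) (Nat.zero_le _)
  simpa using h

theorem growth' (m : ℕ) (hmn : m + 1 ≤ n) :
    Module.finrank K (D.F m) + n.choose (m + 1) * (n + 2).choose (m + 1) ≤
      Module.finrank K (D.F (m + 1)) := by
  rcases Nat.eq_zero_or_pos m with rfl | hm
  · have h := D.growth_zero (by omega)
    rw [card_Pa] at h
    have e : n.choose 1 * (n.choose 1 + 2 * n.choose 0) = n.choose 1 * (n + 2).choose 1 := by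
      simp
    rw [zero_add] at h ⊢
    rw [e] at h
    exact h
  · have h := D.growth m hm hmn
    rw [card_Pa] at h
    obtain ⟨k, rfl⟩ : ∃ k, m = k + 1 := ⟨m - 1, by omega⟩
    rw [Nat.add_sub_cancel] at h
    have e : (n + 2).choose (k + 1 + 1) =
        n.choose k + 2 * n.choose (k + 1) + n.choose (k + 1 + 1) := by
      have h1 := Nat.choose_succ_succ (n + 1) (k + 1)
      have h2 := Nat.choose_succ_succ n k
      have h3 := Nat.choose_succ_succ n (k + 1)
      simp only [Nat.succ_eq_add_one] at h1 h2 h3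
      rw [show n + 2 = n + 1 + 1 from rfl, h1, h2, h3]
      ring
    rw [e]
    have e2 : n.choose (k + 1 + 1) * (n.choose k + 2 * n.choose (k + 1) + n.choose (k + 1 + 1)) =
        n.choose (k + 1 + 1) * (n.choose (k + 1 + 1) + 2 * n.choose (k + 1)) +
          n.choose k * n.choose (k + 1 + 1) := by ring
    rw [e2]
    omega

include D in
theorem r_pos : 0 < r := by
  rcases Nat.eq_zero_or_pos r with rfl | h
  · exfalso
    have := D.hdec 1
    rw [Matrix.det_one] at this
    simp at this
  · exact h

theorem finrank_F (j : ℕ) (hj : j ≤ n) :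
    ∑ i ∈ Finset.range (j + 1), n.choose i * (n + 2).choose i ≤ Module.finrank K (D.F j) := by
  induction j with
  | zero =>
    simp only [zero_add, Finset.range_one, Finset.sum_singleton, Nat.choose_zero_right, mul_one]
    have hne : D.ev [] ≠ 0 := by
      intro h
      have := congrFun h ⟨0, D.r_pos⟩
      simp [ev] at this
    have hmem : D.ev [] ∈ D.F 0 := D.ev_mem 0 [] rfl
    rw [Nat.one_le_iff_ne_zero, Ne, Submodule.finrank_eq_zero]
    intro h
    rw [h, Submodule.mem_bot] at hmem
    exact hne hmem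
  | succ j ih =>
    rw [Finset.sum_range_succ]
    have := D.growth' j hj
    have := ih (by omega)
    omega

include D in
theorem bound : (2 * n + 2).choose n ≤ r := by
  have h1 := D.finrank_F n le_rfl
  have h2 : Module.finrank K (D.F n) ≤ r := by
    have := Submodule.finrank_le (D.F n)
    rwa [Module.finrank_fintype_fun_eq_card, Fintype.card_fin] at this
  have h3 : (2 * n + 2).choose n = ∑ i ∈ Finset.range (n + 1), n.choose i * (n + 2).choose i := by
    rw [show 2 * n + 2 = n + (n + 2) by ring, Nat.add_choose_eq,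
      Finset.Nat.sum_antidiagonal_eq_sum_range_succ_mk, ← Finset.sum_range_reflect]
    refine Finset.sum_congr rfl fun i hi => ?_
    rw [Finset.mem_range] at hi
    have e1 : n + 1 - 1 - i = n - i := by omega
    have e2 : n - (n - i) = i := by omega
    simp only [e1, e2]
    rw [Nat.choose_symm (by omega)]
  rw [h3]
  exact h1.trans h2

end Dat

/-- Generic vectors. -/
theorem exists_uv {n r : ℕ} (l : Fin r → Matrix (Fin (n + 1)) (Fin (n + 1)) K) :
    ∃ u v : Fin (n + 1) → K, u 0 ≠ 0 ∧ v 0 ≠ 0 ∧
      ∀ t, l t ≠ 0 → ∑ i, ∑ j, u i * l t i j * v j ≠ 0 := by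
  classical
  -- the second vector
  let f : Option (Fin r) → Module.Dual K (Fin (n + 1) → K) := fun o =>
    match o with
    | none => LinearMap.proj 0
    | some t => if h : ∃ i j, l t i j ≠ 0 then
        ∑ j, l t h.choose j • LinearMap.proj j else LinearMap.proj 0
  have hf : ∀ o, ∃ x, f o x ≠ 0 := by
    intro o
    have h0 : ∃ x : Fin (n + 1) → K, (LinearMap.proj 0 : Module.Dual K (Fin (n + 1) → K)) x ≠ 0 :=
      ⟨fun _ => 1, by simp⟩
    cases o with
    | none => exact h0
    | some t =>
      simp only [f]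
      split_ifs with h
      · obtain ⟨j, hj⟩ := h.choose_spec
        refine ⟨Pi.single j 1, ?_⟩
        simp only [LinearMap.sum_apply, LinearMap.smul_apply, LinearMap.proj_apply, smul_eq_mul]
        rw [Finset.sum_eq_single j]
        · simpa using hj
        · intro b _ hb
          rw [Pi.single_eq_of_ne hb, mul_zero]
        · intro h; exact absurd (Finset.mem_univ _) h
      · exact h0
  obtain ⟨v, hv⟩ := Module.Dual.exists_forall_ne_zero_of_forall_exists f hf
  have hv0 : v 0 ≠ 0 := hv none
  have hv1 : ∀ t, l t ≠ 0 → ∃ i, ∑ j, l t i j * v j ≠ 0 := by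
    intro t ht
    have h : ∃ i j, l t i j ≠ 0 := by
      by_contra hcon
      push Not at hcon
      exact ht (Matrix.ext hcon)
    refine ⟨h.choose, ?_⟩
    have := hv (some t)
    simp only [f, dif_pos h, LinearMap.sum_apply, LinearMap.smul_apply, LinearMap.proj_apply,
      smul_eq_mul] at this
    exact this
  let g : Option (Fin r) → Module.Dual K (Fin (n + 1) → K) := fun o =>
    match o with
    | none => LinearMap.proj 0
    | some t => if l t ≠ 0 then
        ∑ i, (∑ j, l t i j * v j) • LinearMap.proj i else LinearMap.proj 0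
  have hg : ∀ o, ∃ x, g o x ≠ 0 := by
    intro o
    have h0 : ∃ x : Fin (n + 1) → K, (LinearMap.proj 0 : Module.Dual K (Fin (n + 1) → K)) x ≠ 0 :=
      ⟨fun _ => 1, by simp⟩
    cases o with
    | none => exact h0
    | some t =>
      simp only [g]
      by_cases h : l t ≠ 0
      · rw [if_pos h]
        obtain ⟨i, hi⟩ := hv1 t h
        refine ⟨Pi.single i 1, ?_⟩
        simp only [LinearMap.sum_apply, LinearMap.smul_apply, LinearMap.proj_apply, smul_eq_mul]
        rw [Finset.sum_eq_single i]
        · simpa using hi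
        · intro b _ hb
          rw [Pi.single_eq_of_ne hb, mul_zero]
        · intro h; exact absurd (Finset.mem_univ _) h
      · rw [if_neg h]
        exact h0
  obtain ⟨u, hu⟩ := Module.Dual.exists_forall_ne_zero_of_forall_exists g hg
  refine ⟨u, v, hu none, hv0, fun t ht => ?_⟩
  have := hu (some t)
  simp only [g, if_pos ht, LinearMap.sum_apply, LinearMap.smul_apply, LinearMap.proj_apply,
    smul_eq_mul] at this
  intro h0
  apply this
  rw [← h0]
  refine Finset.sum_congr rfl fun i _ => ?_
  rw [Finset.sum_mul]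
  exact Finset.sum_congr rfl fun j _ => by ring

/-- Normalised data from a power sum decomposition. -/
theorem exists_dat {n r : ℕ} (l : Fin r → Matrix (Fin (n + 1)) (Fin (n + 1)) K)
    (hl : ∀ X : Matrix (Fin (n + 1)) (Fin (n + 1)) K,
      X.det = ∑ z, (∑ i, ∑ j, l z i j * X i j) ^ (n + 1)) : Nonempty (Dat n r K) := by
  classical
  obtain ⟨u, v, hu, hv, huv⟩ := exists_uv l
  set P : Matrix (Fin (n + 1)) (Fin (n + 1)) K := Matrix.updateCol 1 0 u with hP
  set Q : Matrix (Fin (n + 1)) (Fin (n + 1)) K := Matrix.updateRow 1 0 v with hQ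
  have hPdet : P.det = u 0 := by
    rw [hP, ← Matrix.cramer_apply, Matrix.cramer_one]
    rfl
  have hQdet : Q.det = v 0 := by
    rw [hQ, ← Matrix.det_transpose, ← Matrix.updateCol_transpose, Matrix.transpose_one,
      ← Matrix.cramer_apply, Matrix.cramer_one]
    rfl
  -- the transformed forms
  set M' : Fin r → Matrix (Fin (n + 1)) (Fin (n + 1)) K := fun z =>
    P.transpose * l z * Q.transpose with hM'
  have hM'00 : ∀ z, M' z 0 0 = ∑ i, ∑ j, u i * l z i j * v j := by
    intro z
    rw [hM']
    simp only [Matrix.mul_apply, Matrix.transpose_apply, hP, hQ, Matrix.updateCol_self,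
      Matrix.updateRow_self, Finset.sum_mul]
    rw [Finset.sum_comm]
  have hpair : ∀ z (Y : Matrix (Fin (n + 1)) (Fin (n + 1)) K),
      ∑ i, ∑ j, l z i j * (P * Y * Q) i j = ∑ i, ∑ j, M' z i j * Y i j := by
    intro z Y
    have e1 : ∀ A B : Matrix (Fin (n + 1)) (Fin (n + 1)) K,
        ∑ i, ∑ j, A i j * B i j = (A.transpose * B).trace := by
      intro A B
      rw [Matrix.trace]
      simp only [Matrix.diag_apply, Matrix.mul_apply, Matrix.transpose_apply]
      rw [Finset.sum_comm]
    rw [e1, e1, hM']
    simp only [Matrix.transpose_mul, Matrix.transpose_transpose]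
    rw [← Matrix.mul_assoc, Matrix.trace_mul_comm, ← Matrix.mul_assoc, ← Matrix.mul_assoc,
      ← Matrix.mul_assoc]
  refine ⟨⟨fun z => if l z = 0 then 0 else (u 0 * v 0)⁻¹ * (M' z 0 0) ^ (n + 1),
    fun z => if l z = 0 then Matrix.of fun _ _ => 1 else (M' z 0 0)⁻¹ • M' z, ?_, ?_⟩⟩
  · intro z
    by_cases hz : l z = 0
    · rw [if_pos hz]
      rfl
    · rw [if_neg hz, Matrix.smul_apply, smul_eq_mul, inv_mul_cancel₀]
      rw [hM'00]
      exact huv z hz
  · intro Y
    have h1 := hl (P * Y * Q)
    rw [Matrix.det_mul, Matrix.det_mul, hPdet, hQdet] at h1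
    have h2 : Y.det = (u 0 * v 0)⁻¹ * ∑ z, (∑ i, ∑ j, M' z i j * Y i j) ^ (n + 1) := by
      have e0 : ∑ z, (∑ i, ∑ j, M' z i j * Y i j) ^ (n + 1) =
          ∑ z, (∑ i, ∑ j, l z i j * (P * Y * Q) i j) ^ (n + 1) :=
        Finset.sum_congr rfl fun z _ => by rw [hpair z Y]
      rw [e0, ← h1]
      field_simp
    rw [h2, Finset.mul_sum]
    refine Finset.sum_congr rfl fun z _ => ?_
    by_cases hz : l z = 0
    · rw [if_pos hz, zero_mul]
      have : M' z = 0 := by rw [hM']; simp [hz]
      rw [this]
      simp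
    · have hne : M' z 0 0 ≠ 0 := by
        rw [hM'00]
        exact huv z hz
      rw [if_neg hz, if_neg hz]
      have e : ∑ i, ∑ j, ((M' z 0 0)⁻¹ • M' z) i j * Y i j =
          (M' z 0 0)⁻¹ * ∑ i, ∑ j, M' z i j * Y i j := by
        rw [Finset.mul_sum]
        refine Finset.sum_congr rfl fun i _ => ?_
        rw [Finset.mul_sum]
        refine Finset.sum_congr rfl fun j _ => ?_
        rw [Matrix.smul_apply, smul_eq_mul, mul_assoc]
      rw [e, mul_pow, mul_assoc, ← mul_assoc ((M' z 0 0) ^ (n + 1)), ← mul_pow,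
        mul_inv_cancel₀ hne, one_pow, one_mul]

/-- **Main bound.** -/
theorem main {n r : ℕ} (l : Fin r → Matrix (Fin (n + 1)) (Fin (n + 1)) K)
    (hl : ∀ X : Matrix (Fin (n + 1)) (Fin (n + 1)) K,
      X.det = ∑ z, (∑ i, ∑ j, l z i j * X i j) ^ (n + 1)) : (2 * n + 2).choose n ≤ r := by
  obtain ⟨D⟩ := exists_dat l hl
  exact D.bound

end Pool.Agent.Helper40.DetLow
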