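import Pool.Agent.Helper40.DetLow.Vol
import Pool.Agent.Helper40.DetLow.Koszul

/-!
The growth of the filtration by degree of the functions on the points of a power sum decomposition
of the determinant.
-/

set_option autoImplicit false

namespace Pool.Agent.Helper40.DetLow

open Finset List

variable {K : Type*} [Field K] [CharZero K]

section linear
omit [CharZero K]
variable {V W₁ W₂ : Type*} [AddCommGroup V] [Module K V] [FiniteDimensional K V]
  [AddCommGroup W₁] [Module K W₁] [AddCommGroup W₂] [Module K W₂]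

theorem map_add_ker (P : Submodule K V) (A : V →ₗ[K] W₁) :
    Module.finrank K (P.map A) + Module.finrank K (P ⊓ LinearMap.ker A : Submodule K V) =
      Module.finrank K P := by
  have h := (A.domRestrict P).finrank_range_add_finrank_ker
  rw [LinearMap.range_domRestrict] at h
  have e : LinearMap.ker (A.domRestrict P) =
      Submodule.comap P.subtype (P ⊓ LinearMap.ker A : Submodule K V) := by
    ext x
    simp
  rw [e, LinearEquiv.finrank_eq (Submodule.comapSubtypeEquivOfLe inf_le_left)] at h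
  exact h

theorem two_step (P F : Submodule K V) (A : V →ₗ[K] W₁) (B : V →ₗ[K] W₂) (hFP : F ≤ P)
    (hA : ∀ x ∈ F, A x = 0) (hB : ∀ x ∈ F, B x = 0) (a q : ℕ)
    (ha : a ≤ Module.finrank K (P.map A))
    (hq : q ≤ Module.finrank K ((P ⊓ LinearMap.ker A : Submodule K V).map B)) :
    Module.finrank K F + a + q ≤ Module.finrank K P := by
  have h1 := map_add_ker P A
  have h2 := map_add_ker (P ⊓ LinearMap.ker A : Submodule K V) B
  have h3 : Module.finrank K F ≤
      Module.finrank K (P ⊓ LinearMap.ker A ⊓ LinearMap.ker B : Submodule K V) := by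
    refine Submodule.finrank_mono ?_
    refine le_inf (le_inf hFP fun x hx => ?_) fun x hx => ?_
    · exact LinearMap.mem_ker.2 (hA x hx)
    · exact LinearMap.mem_ker.2 (hB x hx)
  omega

end linear

/-- A weighted power sum decomposition of the determinant of size `n + 1` whose forms have
coefficient `1` at the variable `x 0 0`. -/
structure Dat (n r : ℕ) (K : Type*) [Field K] where
  c : Fin r → K
  M : Fin r → Matrix (Fin (n + 1)) (Fin (n + 1)) K
  h0 : ∀ z, M z 0 0 = 1
  hdec : ∀ X : Matrix (Fin (n + 1)) (Fin (n + 1)) K,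
    X.det = ∑ z, c z * (∑ i, ∑ j, M z i j * X i j) ^ (n + 1)

namespace Dat

variable {n r : ℕ} (D : Dat n r K)

/-- Evaluation of the monomial with factors `L` at the points. -/
noncomputable def ev (L : List (Fin (n + 1) × Fin (n + 1))) : Fin r → K := fun z =>
  (L.map fun p => D.M z p.1 p.2).prod

omit [CharZero K] in
theorem ev_append (L L' : List (Fin (n + 1) × Fin (n + 1))) (z : Fin r) :
    D.ev (L ++ L') z = D.ev L z * D.ev L' z := by
  simp [ev]

omit [CharZero K] in
theorem ev_cons (p : Fin (n + 1) × Fin (n + 1)) (L : List (Fin (n + 1) × Fin (n + 1)))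
    (z : Fin r) : D.ev (p :: L) z = D.M z p.1 p.2 * D.ev L z := by
  simp [ev]

omit [CharZero K] in
theorem ev_zero_cons (L : List (Fin (n + 1) × Fin (n + 1))) : D.ev ((0, 0) :: L) = D.ev L := by
  funext z
  rw [ev_cons, D.h0, one_mul]

/-- The functional `f ↦ ∑ c z * f z`. -/
noncomputable def mo (f : Fin r → K) : K := ∑ z, D.c z * f z

omit [CharZero K] in
theorem mo_add (f g : Fin r → K) : D.mo (f + g) = D.mo f + D.mo g := by
  simp only [mo, Pi.add_apply, mul_add, Finset.sum_add_distrib]

/-- The constant `1 / (n+1)!`. -/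
noncomputable def kap (n : ℕ) (K : Type*) [Field K] : K := (((n + 1).factorial : ℕ) : K)⁻¹

theorem kap_ne : kap n K ≠ 0 := inv_ne_zero (by exact_mod_cast (n + 1).factorial_ne_zero)

theorem mo_ev (L : List (Fin (n + 1) × Fin (n + 1))) (hL : L.length = n + 1) :
    D.mo (D.ev L) = kap n K * (vol (L.map Prod.fst) * vol (L.map Prod.snd)) :=
  moment D.c D.M D.hdec L hL

/-- The basic relation between the moments of degree `n + 1` and `n`. -/
theorem star (k l : Fin (n + 1)) (L : List (Fin (n + 1) × Fin (n + 1))) (hL : L.length + 2 = n + 1) :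
    D.mo (D.ev ((0, l) :: (k, 0) :: L)) + D.mo (D.ev ((k, l) :: L)) = 0 := by
  rw [← D.ev_zero_cons ((k, l) :: L), D.mo_ev _ (by simpa using hL), D.mo_ev _ (by simpa using hL)]
  have h := (vol_alt (K := K)) [] l 0 (L.map Prod.snd)
  simp only [List.nil_append] at h
  simp only [List.map_cons]
  rw [h]
  ring

/-- The functions of degree `j`. -/
noncomputable def F (j : ℕ) : Submodule K (Fin r → K) :=
  Submodule.span K {g | ∃ L : List (Fin (n + 1) × Fin (n + 1)), L.length = j ∧ g = D.ev L}

omit [CharZero K] in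
theorem ev_mem (j : ℕ) (L : List (Fin (n + 1) × Fin (n + 1))) (hL : L.length = j) :
    D.ev L ∈ D.F j := Submodule.subset_span ⟨L, hL, rfl⟩

omit [CharZero K] in
theorem F_mono (j : ℕ) : D.F j ≤ D.F (j + 1) := by
  refine Submodule.span_le.2 ?_
  rintro g ⟨L, hL, rfl⟩
  rw [← D.ev_zero_cons L]
  exact D.ev_mem _ _ (by rw [List.length_cons, hL])

/-- Pairing with a fixed function. -/
noncomputable def pr (f : Fin r → K) : (Fin r → K) →ₗ[K] K where
  toFun g := D.mo (f * g)
  map_add' x y := by rw [mul_add, D.mo_add]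
  map_smul' a x := by
    simp only [mo, Pi.mul_apply, Pi.smul_apply, smul_eq_mul, RingHom.id_apply, Finset.mul_sum]
    exact Finset.sum_congr rfl fun z _ => by ring

omit [CharZero K] in
theorem pr_apply (f g : Fin r → K) : D.pr f g = D.mo (f * g) := rfl

omit [CharZero K] in
theorem pr_ev (L L' : List (Fin (n + 1) × Fin (n + 1))) :
    D.pr (D.ev L) (D.ev L') = D.mo (D.ev (L ++ L')) := by
  rw [pr_apply]
  congr 1
  funext z
  rw [Pi.mul_apply, ev_append]

omit [CharZero K] in
theorem ker_of_ev {W : Type*} [AddCommGroup W] [Module K W] (A : (Fin r → K) →ₗ[K] W) (j : ℕ)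
    (h : ∀ L : List (Fin (n + 1) × Fin (n + 1)), L.length = j → A (D.ev L) = 0) :
    ∀ x ∈ D.F j, A x = 0 := by
  intro x hx
  have : D.F j ≤ LinearMap.ker A := by
    refine Submodule.span_le.2 ?_
    rintro g ⟨L, hL, rfl⟩
    exact LinearMap.mem_ker.2 (h L hL)
  exact LinearMap.mem_ker.1 (this hx)

/-! ### The first family of functionals -/

/-- Pairs of `j`-subsets not both containing `0`. -/
abbrev Pa (n j : ℕ) : Type :=
  {p : Finset (Fin (n + 1)) × Finset (Fin (n + 1)) //
    p.1.card = j ∧ p.2.card = j ∧ ¬ ((0 : Fin (n + 1)) ∈ p.1 ∧ (0 : Fin (n + 1)) ∈ p.2)}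

/-- The list of pairs that matches two sets. -/
noncomputable def zl (I J : Finset (Fin (n + 1))) : List (Fin (n + 1) × Fin (n + 1)) :=
  I.toList.zip J.toList

theorem zl_length (I J : Finset (Fin (n + 1))) (j : ℕ) (hI : I.card = j) (hJ : J.card = j) :
    (zl I J).length = j := by
  rw [zl, List.length_zip, Finset.length_toList, Finset.length_toList, hI, hJ, min_self]

theorem zl_fst (I J : Finset (Fin (n + 1))) (h : I.card = J.card) :
    (zl I J).map Prod.fst = I.toList := by
  rw [zl, List.map_fst_zip]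
  rw [Finset.length_toList, Finset.length_toList, h]

theorem zl_snd (I J : Finset (Fin (n + 1))) (h : I.card = J.card) :
    (zl I J).map Prod.snd = J.toList := by
  rw [zl, List.map_snd_zip]
  rw [Finset.length_toList, Finset.length_toList, h]

/-- The first family of functionals. -/
noncomputable def A (j : ℕ) : (Fin r → K) →ₗ[K] (Pa n j → K) :=
  LinearMap.pi fun p => D.pr (D.ev (zl p.1.1ᶜ p.1.2ᶜ))

theorem card_compl' (I : Finset (Fin (n + 1))) (j : ℕ) (hI : I.card = j) :
    Iᶜ.card = n + 1 - j := by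
  rw [Finset.card_compl, Fintype.card_fin, hI]

theorem A_zero (j : ℕ) (hj : 1 ≤ j) (hjn : j ≤ n + 1) : ∀ x ∈ D.F (j - 1), D.A j x = 0 := by
  refine D.ker_of_ev _ _ fun L hL => ?_
  funext p
  obtain ⟨⟨I, J⟩, hI, hJ, h0⟩ := p
  have hc : Iᶜ.card = Jᶜ.card := by rw [card_compl' I j hI, card_compl' J j hJ]
  change D.pr (D.ev (zl Iᶜ Jᶜ)) (D.ev L) = 0
  rw [D.pr_ev, ← D.ev_zero_cons, D.mo_ev]
  swap
  · rw [List.length_cons, List.length_append, zl_length _ _ _ (card_compl' I j hI)
      (card_compl' J j hJ), hL]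
    omega
  simp only [List.map_cons, List.map_append, zl_fst _ _ hc, zl_snd _ _ hc]
  by_cases h : (0 : Fin (n + 1)) ∈ I
  · have h' : (0 : Fin (n + 1)) ∉ J := fun h' => h0 ⟨h, h'⟩
    rw [(vol_alt (K := K)).dup (l := 0 :: ((Jᶜ).toList ++ L.map Prod.snd)), mul_zero, mul_zero]
    intro hn
    exact (List.nodup_cons.1 hn).1 (List.mem_append_left _ (Finset.mem_toList.2
      (Finset.mem_compl.2 h')))
  · rw [(vol_alt (K := K)).dup (l := 0 :: ((Iᶜ).toList ++ L.map Prod.fst)), zero_mul, mul_zero]
    intro hn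
    exact (List.nodup_cons.1 hn).1 (List.mem_append_left _ (Finset.mem_toList.2
      (Finset.mem_compl.2 h)))

omit [CharZero K] in
theorem vol_compl_ne {N : ℕ} (I : Finset (Fin N)) : (vol ((Iᶜ).toList ++ I.toList) : K) ≠ 0 := by
  refine vol_ne _ ?_ ?_
  · refine List.Nodup.append (Finset.nodup_toList _) (Finset.nodup_toList _) ?_
    intro x hx hx'
    rw [Finset.mem_toList] at hx hx'
    exact (Finset.mem_compl.1 hx) hx'
  · rw [List.length_append, Finset.length_toList, Finset.length_toList, Finset.card_compl,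
      Fintype.card_fin]
    have := Finset.card_le_univ I
    rw [Fintype.card_fin] at this
    omega

theorem vol_compl_zero {N : ℕ} (I I' : Finset (Fin N)) (hc : I.card = I'.card) (h : I' ≠ I) :
    (vol ((I'ᶜ).toList ++ I.toList) : K) = 0 := by
  refine (vol_alt (K := K)).dup ?_
  intro hn
  have hd := (List.nodup_append.1 hn).2.2
  apply h
  refine (Finset.eq_of_subset_of_card_le (fun x hx => ?_) hc.ge).symm
  by_contra hx'
  exact hd x (Finset.mem_toList.2 (Finset.mem_compl.2 hx')) x (Finset.mem_toList.2 hx) rfl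

theorem A_ev (j : ℕ) (hjn : j ≤ n + 1) (p p' : Pa n j) :
    D.A j (D.ev (zl p.1.1 p.1.2)) p' = kap n K *
      (vol ((p'.1.1ᶜ).toList ++ p.1.1.toList) * vol ((p'.1.2ᶜ).toList ++ p.1.2.toList)) := by
  obtain ⟨⟨I, J⟩, hI, hJ, _⟩ := p
  obtain ⟨⟨I', J'⟩, hI', hJ', _⟩ := p'
  have hc : I'ᶜ.card = J'ᶜ.card := by rw [card_compl' I' j hI', card_compl' J' j hJ']
  change D.pr (D.ev (zl I'ᶜ J'ᶜ)) (D.ev (zl I J)) = _
  rw [D.pr_ev, D.mo_ev]
  swap
  · rw [List.length_append, zl_length _ _ _ (card_compl' I' j hI') (card_compl' J' j hJ'),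
      zl_length _ _ _ hI hJ]
    omega
  simp only at hI hJ
  simp only [List.map_append, zl_fst _ _ hc, zl_snd _ _ hc, zl_fst I J (hI.trans hJ.symm),
    zl_snd I J (hI.trans hJ.symm)]

theorem A_surj (j : ℕ) (hjn : j ≤ n + 1) : (D.F j).map (D.A j) = ⊤ := by
  classical
  rw [eq_top_iff]
  have hb : ∀ p : Pa n j, (Pi.single p 1 : Pa n j → K) ∈ (D.F j).map (D.A j) := by
    intro p
    set a : K := kap n K * (vol ((p.1.1ᶜ).toList ++ p.1.1.toList) *
      vol ((p.1.2ᶜ).toList ++ p.1.2.toList)) with ha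
    have hane : a ≠ 0 := mul_ne_zero kap_ne (mul_ne_zero (vol_compl_ne _) (vol_compl_ne _))
    have hmem : D.ev (zl p.1.1 p.1.2) ∈ D.F j :=
      D.ev_mem _ _ (zl_length _ _ _ p.2.1 p.2.2.1)
    have e : (Pi.single p 1 : Pa n j → K) = a⁻¹ • D.A j (D.ev (zl p.1.1 p.1.2)) := by
      funext p'
      rw [Pi.smul_apply, D.A_ev j hjn, smul_eq_mul]
      by_cases hp : p' = p
      · subst hp
        rw [Pi.single_eq_same, ← ha, inv_mul_cancel₀ hane]
      · rw [Pi.single_eq_of_ne hp]
        by_cases h1 : p'.1.1 = p.1.1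
        · have h2 : p'.1.2 ≠ p.1.2 := by
            intro h2
            exact hp (Subtype.ext (Prod.ext h1 h2))
          rw [vol_compl_zero p.1.2 p'.1.2 (by rw [p.2.2.1, p'.2.2.1]) h2, mul_zero, mul_zero,
            mul_zero]
        · rw [vol_compl_zero p.1.1 p'.1.1 (by rw [p.2.1, p'.2.1]) h1, zero_mul, mul_zero,
            mul_zero]
    rw [e]
    exact Submodule.smul_mem _ _ (Submodule.mem_map_of_mem hmem)
  intro x _
  rw [pi_eq_sum_univ' x]
  refine Submodule.sum_mem _ fun p _ => Submodule.smul_mem _ _ ?_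
  convert hb p using 1

end Dat

end Pool.Agent.Helper40.DetLow
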