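import Pool.Agent.Helper40.DetLow.Step

/-!
The second family of functionals and the growth of the filtration.
-/

set_option autoImplicit false

namespace Pool.Agent.Helper40.DetLow

open Finset List

variable {K : Type*} [Field K] [CharZero K]

/-- The signed volume on lists of nonzero indices. -/
noncomputable def vs {n : ℕ} (q : List (Fin n)) : K := vol ((0 : Fin (n + 1)) :: q.map Fin.succ)

omit [CharZero K] in
theorem vs_isVol {n : ℕ} : IsVol (vs : List (Fin n) → K) where
  alt := by
    intro a x y c
    have := (vol_alt (K := K)) ((0 : Fin (n + 1)) :: a.map Fin.succ) x.succ y.succ (c.map Fin.succ)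
    simpa only [vs, List.map_append, List.map_cons, List.cons_append] using this
  ne := by
    intro b hb hl
    refine vol_ne _ ?_ ?_
    · rw [List.nodup_cons]
      refine ⟨?_, hb.map (Fin.succ_injective n)⟩
      intro h
      obtain ⟨x, _, hx⟩ := List.mem_map.1 h
      exact Fin.succ_ne_zero x hx
    · rw [List.length_cons, List.length_map, hl]

namespace Dat

variable {n r : ℕ} (D : Dat n r K)

/-- The list of pairs matching two lists of nonzero indices. -/
def zs (a q : List (Fin n)) : List (Fin (n + 1) × Fin (n + 1)) :=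
  (a.map Fin.succ).zip (q.map Fin.succ)

theorem zs_length (a q : List (Fin n)) (h : a.length = q.length) : (zs a q).length = a.length := by
  rw [zs, List.length_zip, List.length_map, List.length_map, h, min_self]

theorem zs_fst (a q : List (Fin n)) (h : a.length = q.length) :
    (zs a q).map Prod.fst = a.map Fin.succ := by
  rw [zs, List.map_fst_zip]
  rw [List.length_map, List.length_map, h]

theorem zs_snd (a q : List (Fin n)) (h : a.length = q.length) :
    (zs a q).map Prod.snd = q.map Fin.succ := by
  rw [zs, List.map_snd_zip]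
  rw [List.length_map, List.length_map, h]

/-- The second family of functions. -/
noncomputable def gv (a q : List (Fin n)) (l : Fin n) : Fin r → K :=
  match a with
  | [] => 0
  | k :: a' => D.ev ((0, l.succ) :: (k.succ, 0) :: zs a' q) + D.ev ((k.succ, l.succ) :: zs a' q)

omit [CharZero K] in
theorem gv_cons (k : Fin n) (a q : List (Fin n)) (l : Fin n) :
    D.gv (k :: a) q l = D.ev ((0, l.succ) :: (k.succ, 0) :: zs a q) +
      D.ev ((k.succ, l.succ) :: zs a q) := rfl

omit [CharZero K] in
theorem gv_mem (k : Fin n) (a q : List (Fin n)) (l : Fin n) (h : a.length = q.length) :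
    D.gv (k :: a) q l ∈ D.F (a.length + 2) := by
  rw [gv_cons]
  refine Submodule.add_mem _ (D.ev_mem _ _ ?_) ?_
  · rw [List.length_cons, List.length_cons, zs_length _ _ h]
  · rw [← D.ev_zero_cons]
    refine D.ev_mem _ _ ?_
    rw [List.length_cons, List.length_cons, zs_length _ _ h]

/-- The two terms of `gv` cancel against monomials of complementary degree. -/
theorem pr_gv_ev (k : Fin n) (a q : List (Fin n)) (l : Fin n) (h : a.length = q.length)
    (L : List (Fin (n + 1) × Fin (n + 1))) (hL : a.length + L.length + 2 = n + 1) :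
    D.pr (D.gv (k :: a) q l) (D.ev L) = 0 := by
  have h1 := D.star k.succ l.succ (zs a q ++ L)
    (by rw [List.length_append, zs_length _ _ h]; exact hL)
  rw [← h1, pr_apply, ← D.mo_add]
  congr 1
  funext z
  rw [gv_cons]
  simp only [Pi.mul_apply, Pi.add_apply, ev_cons, ev_append]
  ring

omit [CharZero K] in
theorem pr_comm (f g : Fin r → K) : D.pr f g = D.pr g f := by
  rw [pr_apply, pr_apply, mul_comm]

/-- The pairing of two functions of the second family is symmetric in the last arguments up to the
signed volume. -/
theorem beta (k k₂ : Fin n) (a q a₂ q₂ : List (Fin n)) (h : a.length = q.length)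
    (h₂ : a₂.length = q₂.length) (hn : a.length + a₂.length + 2 = n) :
    ∃ E : Fin n → Fin n → K, (∀ x y, E x y = E y x) ∧
      ∀ x y, D.pr (D.gv (k₂ :: a₂) q₂ y) (D.gv (k :: a) q x) =
        E x y - kap n K * vs (a ++ k :: k₂ :: a₂) * vs (q ++ x :: y :: q₂) := by
  refine ⟨fun x y => D.mo (D.ev ((0, x.succ) :: (0, y.succ) :: (k.succ, 0) :: (k₂.succ, 0) ::
    (zs a q ++ zs a₂ q₂))), ?_, ?_⟩
  · intro x y
    refine congrArg D.mo (funext fun z => ?_)
    simp only [ev_cons]
    ring
  · intro x y
    have hS : D.mo (D.ev ((k.succ, x.succ) :: (k₂.succ, y.succ) :: (zs a q ++ zs a₂ q₂))) =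
        kap n K * vs (a ++ k :: k₂ :: a₂) * vs (q ++ x :: y :: q₂) := by
      have e1 : D.ev ((k.succ, x.succ) :: (k₂.succ, y.succ) :: (zs a q ++ zs a₂ q₂)) =
          D.ev ((0, 0) :: (zs a q ++ (k.succ, x.succ) :: (k₂.succ, y.succ) :: zs a₂ q₂)) := by
        rw [D.ev_zero_cons]
        funext z
        simp only [ev_cons, ev_append]
        ring
      rw [e1, D.mo_ev]
      · simp only [List.map_cons, List.map_append, zs_fst _ _ h, zs_snd _ _ h, zs_fst _ _ h₂,
          zs_snd _ _ h₂, vs]
        ring
      · rw [List.length_cons, List.length_append, List.length_cons, List.length_cons,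
          zs_length _ _ h, zs_length _ _ h₂]
        omega
    have e2 := D.star k₂.succ y.succ ((k.succ, x.succ) :: (zs a q ++ zs a₂ q₂))
      (by rw [List.length_cons, List.length_append, zs_length _ _ h, zs_length _ _ h₂]; omega)
    have e3 := D.star k.succ x.succ ((k₂.succ, y.succ) :: (zs a q ++ zs a₂ q₂))
      (by rw [List.length_cons, List.length_append, zs_length _ _ h, zs_length _ _ h₂]; omega)
    have e4 : D.mo (D.ev ((k₂.succ, y.succ) :: (k.succ, x.succ) :: (zs a q ++ zs a₂ q₂))) =
        D.mo (D.ev ((k.succ, x.succ) :: (k₂.succ, y.succ) :: (zs a q ++ zs a₂ q₂))) := by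
      refine congrArg D.mo (funext fun z => ?_)
      simp only [ev_cons]
      ring
    have e5 : D.pr (D.gv (k₂ :: a₂) q₂ y) (D.gv (k :: a) q x) =
        D.mo (D.ev ((0, x.succ) :: (0, y.succ) :: (k.succ, 0) :: (k₂.succ, 0) ::
          (zs a q ++ zs a₂ q₂))) +
        D.mo (D.ev ((0, y.succ) :: (k₂.succ, 0) :: (k.succ, x.succ) :: (zs a q ++ zs a₂ q₂))) +
        D.mo (D.ev ((0, x.succ) :: (k.succ, 0) :: (k₂.succ, y.succ) :: (zs a q ++ zs a₂ q₂))) +
        D.mo (D.ev ((k.succ, x.succ) :: (k₂.succ, y.succ) :: (zs a q ++ zs a₂ q₂))) := by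
      rw [pr_apply, ← D.mo_add, ← D.mo_add, ← D.mo_add]
      congr 1
      funext z
      rw [gv_cons, gv_cons]
      simp only [Pi.mul_apply, Pi.add_apply, ev_cons, ev_append]
      ring
    rw [e5, ← hS]
    rw [e4] at e2
    linear_combination e2 + e3

/-- The second family of functionals. -/
noncomputable def B (m : ℕ) :
    (Fin r → K) →ₗ[K] (Sub n (n - m) × Sub n (n - m - 1) × Fin n → K) :=
  LinearMap.pi fun p => D.pr (D.gv p.1.1.toList p.2.1.1.toList p.2.2)

theorem exists_cons {α : Type*} (l : List α) (h : 0 < l.length) : ∃ k a, l = k :: a := by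
  cases l with
  | nil => simp at h
  | cons k a => exact ⟨k, a, rfl⟩

theorem B_zero (m : ℕ) (hmn : m + 1 ≤ n) : ∀ x ∈ D.F m, D.B m x = 0 := by
  refine D.ker_of_ev _ _ fun L hL => ?_
  funext p
  obtain ⟨I, Q, l⟩ := p
  change D.pr (D.gv I.1.toList Q.1.toList l) (D.ev L) = 0
  have hI : I.1.toList.length = n - m := by rw [Finset.length_toList, I.2]
  have hQ : Q.1.toList.length = n - m - 1 := by rw [Finset.length_toList, Q.2]
  obtain ⟨k, a, hk⟩ := exists_cons I.1.toList (by omega)
  rw [hk] at hI ⊢
  rw [List.length_cons] at hI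
  exact D.pr_gv_ev k a _ l (by omega) L (by omega)

theorem A_gv (m : ℕ) (hmn : m + 1 ≤ n) (k : Fin n) (a q : List (Fin n)) (l : Fin n)
    (h : a.length = q.length) (ha : a.length + 1 = m) : D.A (m + 1) (D.gv (k :: a) q l) = 0 := by
  funext p
  obtain ⟨⟨I, J⟩, hI, hJ, h0⟩ := p
  change D.pr (D.ev (zl Iᶜ Jᶜ)) (D.gv (k :: a) q l) = 0
  rw [pr_comm]
  refine D.pr_gv_ev k a q l h _ ?_
  rw [zl_length _ _ _ (card_compl' I _ hI) (card_compl' J _ hJ)]
  omega

/-- The number of functions of degree `m + 1` is larger by the stated amount than the number of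
functions of degree `m`. -/
theorem growth (m : ℕ) (hm : 1 ≤ m) (hmn : m + 1 ≤ n) :
    Module.finrank K (D.F m) + Fintype.card (Pa n (m + 1)) +
      n.choose (m - 1) * n.choose (m + 1) ≤ Module.finrank K (D.F (m + 1)) := by
  classical
  refine two_step (D.F (m + 1)) (D.F m) (D.A (m + 1)) (D.B m) (D.F_mono m) ?_ (D.B_zero m hmn)
    _ _ ?_ ?_
  · have := D.A_zero (m + 1) (by omega) (by omega)
    simpa using this
  · rw [D.A_surj (m + 1) (by omega), finrank_top, Module.finrank_fintype_fun_eq_card]
  · set N : Submodule K (Sub n (n - m) × Sub n (n - m - 1) × Fin n → K) :=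
      (D.F (m + 1) ⊓ LinearMap.ker (D.A (m + 1)) : Submodule K (Fin r → K)).map (D.B m) with hN
    have hmem : ∀ (I : Sub n m) (Q : Sub n (m - 1)) (l : Fin n),
        D.B m (D.gv I.1.toList Q.1.toList l) ∈ N := by
      intro I Q l
      have hI : I.1.toList.length = m := by rw [Finset.length_toList, I.2]
      have hQ : Q.1.toList.length = m - 1 := by rw [Finset.length_toList, Q.2]
      obtain ⟨k, a, hk⟩ := exists_cons I.1.toList (by omega)
      rw [hk] at hI ⊢
      rw [List.length_cons] at hI
      refine Submodule.mem_map_of_mem (Submodule.mem_inf.2 ⟨?_, ?_⟩)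
      · have := D.gv_mem k a Q.1.toList l (by omega)
        have e : a.length + 2 = m + 1 := by omega
        rwa [e] at this
      · exact LinearMap.mem_ker.2 (D.A_gv m hmn k a _ l (by omega) (by omega))
    refine koszul (K := K) hm hmn (vs_isVol (K := K) (n := n)) (N := N)
      (fun I Q l => ⟨D.B m (D.gv I.1.toList Q.1.toList l), hmem I Q l⟩)
      (fun I' Q' l => (LinearMap.proj (I', Q', l)).comp N.subtype)
      (fun I I' => kap n K * vs (I.1.toList.tail ++ I.1.toList.take 1 ++ I'.1.toList)) ?_ ?_ ?_
    · intro I I' hII'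
      refine mul_ne_zero kap_ne ((vs_isVol (K := K)).ne _ ?_ ?_)
      · refine List.Nodup.append ?_ (Finset.nodup_toList _) ?_
        · have hp : I.1.toList.tail ++ I.1.toList.take 1 ~ I.1.toList := by
            refine List.perm_append_comm.trans ?_
            rw [← List.drop_one, List.take_append_drop]
          exact hp.nodup_iff.2 (Finset.nodup_toList _)
        · intro x hx hx'
          have hx2 : x ∈ I.1.toList := by
            rcases List.mem_append.1 hx with h | h
            · exact List.mem_of_mem_tail h
            · exact List.mem_of_mem_take h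
          rw [Finset.mem_toList] at hx' hx2
          rw [hII'] at hx'
          exact (Finset.mem_compl.1 hx') hx2
      · have h1 : I.1.toList.length = m := by rw [Finset.length_toList, I.2]
        have h2 : I'.1.toList.length = n - m := by rw [Finset.length_toList, I'.2]
        rw [List.length_append, List.length_append, List.length_tail, List.length_take, h1, h2]
        omega
    · intro I I' hII'
      rw [(vs_isVol (K := K)).alt.dup, mul_zero]
      intro hn
      have hd := (List.nodup_append.1 hn).2.2
      apply hII'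
      refine Finset.eq_of_subset_of_card_le (fun x hx => ?_) ?_
      · rw [Finset.mem_compl]
        intro hxI
        have hp : I.1.toList.tail ++ I.1.toList.take 1 ~ I.1.toList := by
          refine List.perm_append_comm.trans ?_
          rw [← List.drop_one, List.take_append_drop]
        exact hd x (hp.mem_iff.2 (Finset.mem_toList.2 hxI)) x (Finset.mem_toList.2 hx) rfl
      · rw [Finset.card_compl, Fintype.card_fin, I.2, I'.2]
    · intro I Q I' Q'
      have hI : I.1.toList.length = m := by rw [Finset.length_toList, I.2]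
      have hQ : Q.1.toList.length = m - 1 := by rw [Finset.length_toList, Q.2]
      have hI' : I'.1.toList.length = n - m := by rw [Finset.length_toList, I'.2]
      have hQ' : Q'.1.toList.length = n - m - 1 := by rw [Finset.length_toList, Q'.2]
      obtain ⟨k, a, hk⟩ := exists_cons I.1.toList (by omega)
      obtain ⟨k₂, a₂, hk₂⟩ := exists_cons I'.1.toList (by omega)
      have hla : a.length + 1 = m := by rw [← hI, hk, List.length_cons]
      have hla₂ : a₂.length + 1 = n - m := by rw [← hI', hk₂, List.length_cons]
      obtain ⟨E, hE, hbeta⟩ := D.beta k k₂ a Q.1.toList a₂ Q'.1.toList (by omega) (by omega)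
        (by omega)
      refine ⟨E, hE, fun x y => ?_⟩
      change D.pr (D.gv I'.1.toList Q'.1.toList y) (D.gv I.1.toList Q.1.toList x) = _
      rw [hk, hk₂, hbeta x y]
      simp only [List.tail_cons, List.take_succ_cons, List.take_zero, List.append_assoc,
        List.cons_append, List.nil_append]

end Dat

end Pool.Agent.Helper40.DetLow
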