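import Pool.Agent.Helper40.DetLow.Alt
import Pool.Agent.Helper87.TA.St.Ryser

/-!
The moments of a power sum decomposition of the determinant.
-/

set_option autoImplicit false

namespace Pool.Agent.Helper40.DetLow

open Finset List

variable {K : Type*} [Field K] [CharZero K]

/-- The matrix with the rows `e_(b 0), ..., e_(b (N-1))`. -/
def emat {N : ℕ} (b : Fin N → Fin N) : Matrix (Fin N) (Fin N) K :=
  Matrix.of fun s i => if b s = i then 1 else 0

/-- The signed volume of a list of basis vectors. -/
noncomputable def vol {N : ℕ} (b : List (Fin N)) : K :=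
  if h : b.length = N then (emat fun s => b.get (Fin.cast h.symm s)).det else 0

omit [CharZero K] in
theorem vol_of {N : ℕ} (b : List (Fin N)) (h : b.length = N) :
    (vol b : K) = (emat fun s => b.get (Fin.cast h.symm s)).det := by
  rw [vol, dif_pos h]

omit [CharZero K] in
theorem vol_alt {N : ℕ} : Alt (vol : List (Fin N) → K) := by
  intro a x y c
  by_cases h : (a ++ x :: y :: c).length = N
  swap
  · have h' : ¬ (a ++ y :: x :: c).length = N := by
      simpa using h
    rw [vol, vol, dif_neg h, dif_neg h', neg_zero]
  have h' : (a ++ y :: x :: c).length = N := by simpa using h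
  rw [vol, vol, dif_pos h, dif_pos h']
  have hlen : a.length + 1 < N := by
    have h0 := h
    simp only [List.length_append, List.length_cons] at h0
    omega
  set i : Fin N := ⟨a.length, by omega⟩ with hi
  set j : Fin N := ⟨a.length + 1, hlen⟩ with hj
  have hij : i ≠ j := by
    intro h0
    have := congrArg Fin.val h0
    simp [hi, hj] at this
  have e : (emat fun s => (a ++ x :: y :: c).get (Fin.cast h.symm s) :
      Matrix (Fin N) (Fin N) K) =
      (emat fun s => (a ++ y :: x :: c).get (Fin.cast h'.symm s)).submatrix (Equiv.swap i j) id := by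
    ext s t
    have e1 : (a ++ x :: y :: c).get (Fin.cast h.symm s) =
        (a ++ y :: x :: c).get (Fin.cast h'.symm (Equiv.swap i j s)) := by
      by_cases hs1 : s = i
      · subst hs1
        rw [Equiv.swap_apply_left]
        simp [hj, hi]
      · by_cases hs2 : s = j
        · subst hs2
          rw [Equiv.swap_apply_right]
          simp [hi, hj]
        · rw [Equiv.swap_apply_of_ne_of_ne hs1 hs2]
          have n1 : s.val ≠ a.length := fun h0 => hs1 (Fin.ext h0)
          have n2 : s.val ≠ a.length + 1 := fun h0 => hs2 (Fin.ext h0)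
          simp only [List.get_eq_getElem, Fin.val_cast, List.getElem_append]
          split_ifs with h3
          · rfl
          · obtain ⟨k, hk⟩ : ∃ k, s.val - a.length = k + 1 + 1 :=
              ⟨s.val - a.length - 2, by omega⟩
            simp only [hk, List.getElem_cons_succ]
    simp only [emat, Matrix.of_apply, Matrix.submatrix_apply, id, e1]
  rw [e, Matrix.det_permute, Equiv.Perm.sign_swap hij]
  simp

omit [CharZero K] in
theorem vol_ne {N : ℕ} (b : List (Fin N)) (hn : b.Nodup) (h : b.length = N) :
    (vol b : K) ≠ 0 := by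
  rw [vol, dif_pos h]
  have hinj : Function.Injective fun s : Fin N => b.get (Fin.cast h.symm s) := by
    intro s t hst
    have := List.nodup_iff_injective_get.1 hn hst
    exact Fin.cast_injective _ this
  set σ : Equiv.Perm (Fin N) := Equiv.ofBijective _ (Finite.injective_iff_bijective.1 hinj) with hσ
  have e : (emat fun s => b.get (Fin.cast h.symm s) : Matrix (Fin N) (Fin N) K) =
      (1 : Matrix (Fin N) (Fin N) K).submatrix σ id := by
    ext s t
    simp only [emat, Matrix.of_apply, Matrix.submatrix_apply, id, Matrix.one_apply, hσ,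
      Equiv.ofBijective_apply]
  rw [e, Matrix.det_permute, Matrix.det_one, mul_one]
  rcases Int.units_eq_one_or (Equiv.Perm.sign σ) with h1 | h1 <;> simp [h1]

/-- The moments of a power sum decomposition of the determinant. -/
theorem moment {N r : ℕ} (c : Fin r → K) (M : Fin r → Matrix (Fin N) (Fin N) K)
    (hdec : ∀ X : Matrix (Fin N) (Fin N) K, X.det = ∑ z, c z * (∑ i, ∑ j, M z i j * X i j) ^ N)
    (L : List (Fin N × Fin N)) (hL : L.length = N) :
    ∑ z, c z * (L.map fun p => M z p.1 p.2).prod =
      ((N.factorial : K)⁻¹) * (vol (L.map Prod.fst) * vol (L.map Prod.snd)) := by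
  set a : Fin N → Fin N := fun s => (L.get (Fin.cast hL.symm s)).1 with ha
  set b : Fin N → Fin N := fun s => (L.get (Fin.cast hL.symm s)).2 with hb
  have hva : (vol (L.map Prod.fst) : K) = (emat a).det := by
    rw [vol_of _ (by rw [List.length_map, hL])]
    congr 2
    ext s
    simp [ha]
  have hvb : (vol (L.map Prod.snd) : K) = (emat b).det := by
    rw [vol_of _ (by rw [List.length_map, hL])]
    congr 2
    ext s
    simp [hb]
  have hprod : ∀ z, (L.map fun p => M z p.1 p.2).prod = ∏ s : Fin N, M z (a s) (b s) := by
    intro z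
    rw [← Fin.prod_univ_fun_getElem L (fun p => M z p.1 p.2)]
    exact Fintype.prod_equiv (finCongr hL) _ _ (fun s => by simp [ha, hb])
  have hX : ∀ y : Fin N → K, (emat a).det * (∏ s, y s) * (emat b).det =
      ∑ z, c z * (∑ s, y s * M z (a s) (b s)) ^ N := by
    intro y
    have h1 := hdec ((emat a).transpose * Matrix.diagonal y * emat b)
    rw [Matrix.det_mul, Matrix.det_mul, Matrix.det_transpose, Matrix.det_diagonal] at h1
    rw [h1]
    refine Finset.sum_congr rfl fun z _ => ?_
    congr 2
    have h2 : ∀ i j, ((emat a).transpose * Matrix.diagonal y * emat b : Matrix (Fin N) (Fin N) K) i j =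
        ∑ s, (if a s = i then 1 else 0) * (y s * (if b s = j then 1 else 0)) := by
      intro i j
      rw [Matrix.mul_apply]
      refine Finset.sum_congr rfl fun s _ => ?_
      rw [Matrix.mul_diagonal]
      simp only [emat, Matrix.transpose_apply, Matrix.of_apply]
      ring
    have h3 : ∀ i j, M z i j * ((emat a).transpose * Matrix.diagonal y * emat b :
        Matrix (Fin N) (Fin N) K) i j =
        ∑ s, if a s = i then (if b s = j then y s * M z i j else 0) else 0 := by
      intro i j
      rw [h2, Finset.mul_sum]
      refine Finset.sum_congr rfl fun s _ => ?_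
      split_ifs <;> ring
    simp only [h3]
    rw [Finset.sum_congr rfl fun i _ => Finset.sum_comm, Finset.sum_comm]
    refine Finset.sum_congr rfl fun s _ => ?_
    simp
  have hpol : ∀ z, ((N.factorial : ℕ) : K) * ∏ s : Fin N, M z (a s) (b s) =
      ∑ S : Finset (Fin N), (-1) ^ (N - S.card) * (∑ s ∈ S, M z (a s) (b s)) ^ N :=
    fun z => Helper87.TA.polar fun s => M z (a s) (b s)
  have hfac : ((N.factorial : ℕ) : K) ≠ 0 := by exact_mod_cast N.factorial_ne_zero
  have hmain : ((N.factorial : ℕ) : K) * ∑ z, c z * ∏ s : Fin N, M z (a s) (b s) =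
      (emat a).det * (emat b).det := by
    have e1 : ((N.factorial : ℕ) : K) * ∑ z, c z * ∏ s : Fin N, M z (a s) (b s) =
        ∑ S : Finset (Fin N), (-1) ^ (N - S.card) *
          ∑ z, c z * (∑ s ∈ S, M z (a s) (b s)) ^ N := by
      rw [Finset.mul_sum]
      have e2 : ∀ z, ((N.factorial : ℕ) : K) * (c z * ∏ s : Fin N, M z (a s) (b s)) =
          ∑ S : Finset (Fin N), (-1) ^ (N - S.card) * (c z *
            (∑ s ∈ S, M z (a s) (b s)) ^ N) := by
        intro z
        rw [mul_left_comm, hpol z, Finset.mul_sum]
        refine Finset.sum_congr rfl fun S _ => ?_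
        ring
      rw [Finset.sum_congr rfl fun z _ => e2 z, Finset.sum_comm]
      refine Finset.sum_congr rfl fun S _ => ?_
      rw [Finset.mul_sum]
    rw [e1, Finset.sum_eq_single (Finset.univ : Finset (Fin N))]
    · rw [Finset.card_univ, Fintype.card_fin, Nat.sub_self, pow_zero, one_mul]
      have := hX (fun _ => 1)
      simp only [Finset.prod_const_one, mul_one, one_mul] at this
      exact this.symm
    · intro S _ hS
      have h5 := hX (fun s => if s ∈ S then 1 else 0)
      have h6 : ∏ s : Fin N, (if s ∈ S then (1 : K) else 0) = 0 := by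
        obtain ⟨s, hs⟩ : ∃ s, s ∉ S := by
          by_contra hcon
          push Not at hcon
          exact hS (Finset.eq_univ_of_forall hcon)
        exact Finset.prod_eq_zero (Finset.mem_univ s) (by rw [if_neg hs])
      rw [h6, mul_zero, zero_mul] at h5
      have h7 : ∀ z, ∑ s : Fin N, (if s ∈ S then (1 : K) else 0) * M z (a s) (b s) =
          ∑ s ∈ S, M z (a s) (b s) := by
        intro z
        simp
      simp only [h7] at h5
      rw [← h5, mul_zero]
    · intro h; exact absurd (Finset.mem_univ _) h
  rw [hva, hvb, Finset.sum_congr rfl fun z _ => by rw [hprod z]]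
  rw [← hmain, ← mul_assoc, inv_mul_cancel₀ hfac, one_mul]

end Pool.Agent.Helper40.DetLow
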